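import Mathlib
import Pool.Agent.Helper479.Bond.VK

set_option autoImplicit false

/-!
Kernel-friendly evaluation helpers, the incidence tables and realizations by curves.
-/

namespace Pool.Agent.T6.H80.MT

open Set

/-- Apply `f` to `n`, forcing the evaluation of `n` first when the kernel computes. -/
noncomputable def force {β : Type} (n : ℕ) (f : ℕ → β) : β :=
  Nat.rec (motive := fun _ => β) (f 0) (fun k _ => f (Nat.succ k)) n

theorem force_eq {β : Type} (n : ℕ) (f : ℕ → β) : force n f = f n := by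
  cases n <;> rfl

/-- Bit `i` of `m`. -/
def tst (m i : ℕ) : Bool := Nat.beq (Nat.land (Nat.shiftRight m i) 1) 1

/-- Bits `32 * c + x` for the name `x` lying on the curve `c`. -/
def INC : ℕ := 27888240500686429992456877089222134063269779751361509162973101209036689156080186328805632262258536950055640321068417429941672614414759906519229849163712692501

/-- Entries of five bits: the common name of two curves, 31 for none. -/
def COM : ℕ := 633268966772630012042136932240360040697663938752477439015811177106140179884629137612904251288823091395199022955456886268171327418057691272133556430923446999525390589569036649096227987667858163281353890028114311361204769711913216449367232398926491396419223511401432960779310178600551522231695645906485185885380383163090378387949839583015434686874488431966113937038391780232906284174172595858992158967968449490077303515432477881136360015584109477620912577397225953600338193790095558216853494372395862704428528588224056956920393802494307432318175518039266539698094585887904435129260540871833605663937041018470638924378116869706458591960319520004788404173904568615984539375160481917584053151895381340546059083163320494008171150797710073788091983633201862085704080471446455682986219397957700881628254289292261292309622104159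

/-- The name `x` is on the curve `c`. -/
def onc (c x : ℕ) : Bool := tst INC (Nat.add (Nat.mul 32 c) x)

/-- The common name of the curves `c` and `d`. -/
def com (c d : ℕ) : ℕ := Nat.land (Nat.shiftRight COM (Nat.mul 5 (Nat.add (Nat.mul 32 c) d))) 31

/-- The real number `b` is strictly between `a` and `c`. -/
def Btw (a b c : ℝ) : Prop := (a < b ∧ b < c) ∨ (c < b ∧ b < a)

theorem Btw.symm {a b c : ℝ} (h : Btw a b c) : Btw c b a := by
  rcases h with h | h
  · exact Or.inr h
  · exact Or.inl h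

theorem Btw_comm {a b c : ℝ} : Btw a b c ↔ Btw c b a := ⟨Btw.symm, Btw.symm⟩

/-- A realization of the first `k` curves. The names `0..12` are the points; the names `13..18` are
the possible further intersection points of pairs of the first 13 curves. -/
structure Rz (k : ℕ) where
  P : ℕ → ℂ
  ex : ℕ → Prop
  γ : ℕ → ℝ → ℂ
  t : ℕ → ℕ → ℝ
  exd : ∀ x < 13, ex x
  cont : ∀ c < k, ContinuousOn (γ c) (Icc 0 1)
  inj : ∀ c < k, InjOn (γ c) (Icc 0 1)
  tm : ∀ c < k, ∀ x < 19, onc c x = true → ex x → t c x ∈ Icc (0 : ℝ) 1 ∧ γ c (t c x) = P x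
  pinj : ∀ x < 19, ∀ y < 19, ex x → ex y → P x = P y → x = y
  meet : ∀ c < k, ∀ d < k, c ≠ d → com c d ≠ 31 → ∀ z ∈ γ c '' Icc 0 1, z ∈ γ d '' Icc 0 1 →
    ex (com c d) ∧ z = P (com c d)

/-- The sub-arc of the curve `c` between the names `x` and `y`. -/
def arc {k : ℕ} (R : Rz k) (c x y : ℕ) : Set ℂ := R.γ c '' uIcc (R.t c x) (R.t c y)

/-- The code of a betweenness statement. -/
def bc (c y x z : ℕ) : ℕ :=
  cond (Nat.ble x z)
    (Nat.add (Nat.mul (Nat.add (Nat.mul (Nat.add (Nat.mul c 32) y) 32) x) 32) z)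
    (Nat.add (Nat.mul (Nat.add (Nat.mul (Nat.add (Nat.mul c 32) y) 32) z) 32) x)

/-- The code of the existence of a name. -/
def ec (x : ℕ) : ℕ := Nat.add 1048576 x

/-- The meaning of a code. -/
def ev {k : ℕ} (R : Rz k) (q : ℕ) : Prop :=
  if q < 1048576 then
    R.ex (q / 32 % 32) ∧ R.ex (q / 1024 % 32) ∧ R.ex (q % 32) ∧
      Btw (R.t (q / 32768) (q / 32 % 32)) (R.t (q / 32768) (q / 1024 % 32)) (R.t (q / 32768) (q % 32))
  else R.ex (q - 1048576)

theorem ev_bc {k : ℕ} (R : Rz k) {c y x z : ℕ} (hc : c < 32) (hy : y < 32) (hx : x < 32)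
    (hz : z < 32) :
    ev R (bc c y x z) ↔ R.ex x ∧ R.ex y ∧ R.ex z ∧ Btw (R.t c x) (R.t c y) (R.t c z) := by
  have key : ∀ x z : ℕ, x < 32 → z < 32 →
      (ev R (((c * 32 + y) * 32 + x) * 32 + z) ↔
        R.ex x ∧ R.ex y ∧ R.ex z ∧ Btw (R.t c x) (R.t c y) (R.t c z)) := by
    intro x z hx hz
    have e0 : ((c * 32 + y) * 32 + x) * 32 + z < 1048576 := by omega
    have e1 : (((c * 32 + y) * 32 + x) * 32 + z) / 32 % 32 = x := by omega
    have e2 : (((c * 32 + y) * 32 + x) * 32 + z) / 1024 % 32 = y := by omega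
    have e3 : (((c * 32 + y) * 32 + x) * 32 + z) % 32 = z := by omega
    have e4 : (((c * 32 + y) * 32 + x) * 32 + z) / 32768 = c := by omega
    unfold ev
    rw [if_pos e0, e1, e2, e3, e4]
  unfold bc
  cases Nat.ble x z with
  | true => exact key x z hx hz
  | false =>
    refine (key z x hz hx).trans ?_
    rw [Btw_comm]
    tauto

theorem ev_ec {k : ℕ} (R : Rz k) (x : ℕ) : ev R (ec x) ↔ R.ex x := by
  have e : ec x = 1048576 + x := rfl
  unfold ev
  rw [e, if_neg (by omega), Nat.add_sub_cancel_left]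

theorem onc_lt {c x : ℕ} (h : onc c x = true) : onc c x = true := h

theorem tne {k : ℕ} (R : Rz k) {c x y : ℕ} (hc : c < k) (hx : x < 19) (hy : y < 19)
    (ox : onc c x = true) (oy : onc c y = true) (ex : R.ex x) (ey : R.ex y) (hne : x ≠ y) :
    R.t c x ≠ R.t c y := by
  intro h
  apply hne
  apply R.pinj x hx y hy ex ey
  rw [← (R.tm c hc x hx ox ex).2, ← (R.tm c hc y hy oy ey).2, h]

theorem arc_sub {k : ℕ} (R : Rz k) {c x y : ℕ} (hc : c < k) (hx : x < 19) (hy : y < 19)
    (ox : onc c x = true) (oy : onc c y = true) (ex : R.ex x) (ey : R.ex y) :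
    uIcc (R.t c x) (R.t c y) ⊆ Icc 0 1 := by
  apply uIcc_subset_Icc
  · exact (R.tm c hc x hx ox ex).1
  · exact (R.tm c hc y hy oy ey).1

theorem arc_joined {k : ℕ} (R : Rz k) {c x y : ℕ} (hc : c < k) (hx : x < 19) (hy : y < 19)
    (ox : onc c x = true) (oy : onc c y = true) (ex : R.ex x) (ey : R.ex y) :
    JoinedIn (arc R c x y) (R.P x) (R.P y) := by
  have hp : IsPathConnected (uIcc (R.t c x) (R.t c y)) :=
    (convex_uIcc _ _).isPathConnected nonempty_uIcc
  have hi : IsPathConnected (arc R c x y) :=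
    hp.image' ((R.cont c hc).mono (arc_sub R hc hx hy ox oy ex ey))
  apply hi.joinedIn
  · exact ⟨_, left_mem_uIcc, (R.tm c hc x hx ox ex).2⟩
  · exact ⟨_, right_mem_uIcc, (R.tm c hc y hy oy ey).2⟩

/-- If the name `v` is on the sub-arc of `c` between `x` and `y`, it is strictly between. -/
theorem btw_of_mem {k : ℕ} (R : Rz k) {c x y v : ℕ} (hc : c < k) (hx : x < 19) (hy : y < 19)
    (hv : v < 19) (ox : onc c x = true) (oy : onc c y = true) (ov : onc c v = true)
    (ex : R.ex x) (ey : R.ex y) (ev : R.ex v) (hvx : v ≠ x) (hvy : v ≠ y)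
    (hm : R.P v ∈ arc R c x y) : Btw (R.t c x) (R.t c v) (R.t c y) := by
  obtain ⟨s, hs, hse⟩ := hm
  have hsI := arc_sub R hc hx hy ox oy ex ey hs
  have hv' := R.tm c hc v hv ov ev
  have hst : s = R.t c v := R.inj c hc hsI hv'.1 (hse.trans hv'.2.symm)
  subst hst
  have h1 := tne R hc hv hx ov ox ev ex hvx
  have h2 := tne R hc hv hy ov oy ev ey hvy
  rw [mem_uIcc] at hs
  rcases hs with ⟨a, b⟩ | ⟨a, b⟩
  · exact Or.inl ⟨lt_of_le_of_ne a (Ne.symm h1), lt_of_le_of_ne b h2⟩
  · exact Or.inr ⟨lt_of_le_of_ne a (Ne.symm h2), lt_of_le_of_ne b h1⟩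

theorem com_spec : ∀ c < 17, ∀ d < 17, c ≠ d → com c d ≠ 31 →
    com c d < 19 ∧ onc c (com c d) = true ∧ onc d (com c d) = true := by
  decide

theorem onc_bd : ∀ c < 17, ∀ x < 32, onc c x = true → x < 19 := by
  decide

/-- Disjointness of sub-arcs of different curves. -/
theorem disj_diff {k : ℕ} (R : Rz k) (hk : k ≤ 17) {c x y d z w : ℕ} (hc : c < k) (hd : d < k)
    (hcd : c ≠ d) (hx : x < 19) (hy : y < 19) (ox : onc c x = true) (oy : onc c y = true)
    (ex : R.ex x) (ey : R.ex y) (hcom : com c d ≠ 31) (hvx : com c d ≠ x) (hvy : com c d ≠ y)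
    (hb : ¬ (R.ex x ∧ R.ex (com c d) ∧ R.ex y ∧
      Btw (R.t c x) (R.t c (com c d)) (R.t c y)))
    (hz : z < 19) (hw : w < 19) (oz : onc d z = true) (ow : onc d w = true)
    (ez : R.ex z) (ew : R.ex w) :
    Disjoint (arc R c x y) (arc R d z w) := by
  rw [Set.disjoint_left]
  intro p hp hp'
  obtain ⟨hv, oc, -⟩ := com_spec c (by omega) d (by omega) hcd hcom
  have h1 : p ∈ R.γ c '' Icc 0 1 := image_mono (arc_sub R hc hx hy ox oy ex ey) hp
  have h2 : p ∈ R.γ d '' Icc 0 1 := image_mono (arc_sub R hd hz hw oz ow ez ew) hp'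
  obtain ⟨hev, rfl⟩ := R.meet c hc d hd hcd hcom p h1 h2
  exact hb ⟨ex, hev, ey, btw_of_mem R hc hx hy hv ox oy oc ex ey hev hvx hvy hp⟩

/-- Disjointness of sub-arcs of the same curve. -/
theorem disj_same {k : ℕ} (R : Rz k) {c x y z w : ℕ} (hc : c < k)
    (hx : x < 19) (hy : y < 19) (hz : z < 19) (hw : w < 19)
    (ox : onc c x = true) (oy : onc c y = true) (oz : onc c z = true) (ow : onc c w = true)
    (ex : R.ex x) (ey : R.ex y) (ez : R.ex z) (ew : R.ex w)
    (hxz : x ≠ z) (hxw : x ≠ w) (hyz : y ≠ z) (hyw : y ≠ w)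
    (h1 : ¬ Btw (R.t c x) (R.t c z) (R.t c y))
    (h2 : ¬ Btw (R.t c x) (R.t c w) (R.t c y))
    (h3 : ¬ Btw (R.t c z) (R.t c x) (R.t c w)) :
    Disjoint (arc R c x y) (arc R c z w) := by
  rw [Set.disjoint_left]
  rintro p ⟨s, hs, rfl⟩ ⟨s', hs', he⟩
  have hsI := arc_sub R hc hx hy ox oy ex ey hs
  have hsI' := arc_sub R hc hz hw oz ow ez ew hs'
  have : s' = s := R.inj c hc hsI' hsI he
  subst this
  have n1 := tne R hc hx hz ox oz ex ez hxz
  have n2 := tne R hc hx hw ox ow ex ew hxw
  have n3 := tne R hc hy hz oy oz ey ez hyz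
  have n4 := tne R hc hy hw oy ow ey ew hyw
  rw [mem_uIcc] at hs hs'
  unfold Btw at h1 h2 h3
  push Not at h1 h2 h3
  obtain ⟨h1a, h1b⟩ := h1
  obtain ⟨h2a, h2b⟩ := h2
  obtain ⟨h3a, h3b⟩ := h3
  rcases lt_or_gt_of_ne n1 with a1 | a1 <;> rcases lt_or_gt_of_ne n2 with a2 | a2 <;>
  rcases lt_or_gt_of_ne n3 with a3 | a3 <;> rcases lt_or_gt_of_ne n4 with a4 | a4 <;>
  first
    | (have := h1a a1; linarith)
    | (have := h1b a3; linarith)
    | (have := h2a a2; linarith)
    | (have := h2b a4; linarith)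
    | (have := h3a a1; linarith)
    | (have := h3b a2; linarith)
    | (rcases hs with ⟨b1, b2⟩ | ⟨b1, b2⟩ <;> rcases hs' with ⟨b3, b4⟩ | ⟨b3, b4⟩ <;> linarith)

end Pool.Agent.T6.H80.MT
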