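import Mathlib

set_option autoImplicit false

namespace Pool.Agent.T6.H80.MT

/-- A curve (simple arc): the image of a continuous injective map `[0,1] → ℝ²`. -/
def IsCurve (C : Set (ℝ × ℝ)) : Prop :=
  ∃ f : unitInterval → ℝ × ℝ, Continuous f ∧ Function.Injective f ∧ Set.range f = C

/-- The 0-1 matrix `A` (entries `true` for 1 and `false` for 0) is realizable by curves: there are
distinct points `p j`, one for each column, and curves `c i`, one for each row, such that `p j` lies
on `c i` exactly when `A i j = 1`, and any two of the curves have at most one common point. -/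
def RealizableByCurves {m n : ℕ} (A : Matrix (Fin m) (Fin n) Bool) : Prop :=
  ∃ (p : Fin n → ℝ × ℝ) (c : Fin m → Set (ℝ × ℝ)), Function.Injective p ∧ (∀ i, IsCurve (c i)) ∧
    (∀ i j, p j ∈ c i ↔ A i j = true) ∧ ∀ i i', i ≠ i' → (c i ∩ c i').Subsingleton

end Pool.Agent.T6.H80.MT
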