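import Mathlib
import Pool.Agent.T6.H80.MT.Defs
import Pool.Agent.T6.H80.MT.Basic

set_option autoImplicit false

/-!
From a realization by curves to the structure `Rz 17`.
-/

namespace Pool.Agent.T6.H80.MT

open Set

/-- The two curves of the additional names. -/
def pa (x : ℕ) : ℕ := [3, 4, 5, 7, 7, 9].getD (x - 13) 0

def pb (x : ℕ) : ℕ := [12, 11, 11, 11, 12, 12].getD (x - 13) 0

theorem pab : ∀ x < 19, 13 ≤ x → pa x < 17 ∧ pb x < 17 ∧ pa x ≠ pb x := by decide

theorem onc_opt : ∀ c < 17, ∀ x < 19, 13 ≤ x → onc c x = true → c = pa x ∨ c = pb x := by decide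

theorem no_common : ∀ x < 19, 13 ≤ x → ∀ y < 13, ¬ (onc (pa x) y = true ∧ onc (pb x) y = true) := by
  decide

/-- The two curves `u`, `w` have the common point `v`, not on `q`. -/
def triQ (u w q v : ℕ) : Prop := u ≠ w ∧ onc u v = true ∧ onc w v = true ∧ onc q v = false

instance (u w q v : ℕ) : Decidable (triQ u w q v) := by unfold triQ; infer_instance

def triP (x y : ℕ) : Prop := ∃ u ∈ [pa x, pb x, pa y, pb y], ∃ w ∈ [pa x, pb x, pa y, pb y],
    ∃ q ∈ [pa x, pb x, pa y, pb y], ∃ v < 13, triQ u w q v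

instance (x y : ℕ) : Decidable (triP x y) := by unfold triP; infer_instance

theorem tri : ∀ x < 19, 13 ≤ x → ∀ y < 19, 13 ≤ y → x ≠ y → triP x y := by
  decide +kernel

def comP (c d : ℕ) : Prop := com c d < 19 ∧
    ((c = pa (com c d) ∧ d = pb (com c d)) ∨ (d = pa (com c d) ∧ c = pb (com c d)))

instance (c d : ℕ) : Decidable (comP c d) := by unfold comP; infer_instance

theorem com_opt : ∀ c < 17, ∀ d < 17, c ≠ d → com c d ≠ 31 → 13 ≤ com c d → comP c d := by
  decide +kernel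

/-- Abstract data: points and arcs in `ℂ`. -/
structure Pre where
  p : ℕ → ℂ
  γ : ℕ → ℝ → ℂ
  pinj : ∀ x < 13, ∀ y < 13, p x = p y → x = y
  cont : ∀ c < 17, ContinuousOn (γ c) (Icc 0 1)
  inj : ∀ c < 17, InjOn (γ c) (Icc 0 1)
  inc : ∀ c < 17, ∀ x < 13, (p x ∈ γ c '' Icc 0 1 ↔ onc c x = true)
  sub : ∀ c < 17, ∀ d < 17, c ≠ d → (γ c '' Icc 0 1 ∩ γ d '' Icc 0 1).Subsingleton

namespace Pre

variable (Q : Pre)

/-- Two curves of a further name meet. -/
def X (x : ℕ) : Prop := (Q.γ (pa x) '' Icc 0 1 ∩ Q.γ (pb x) '' Icc 0 1).Nonempty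

open Classical in
noncomputable def P (x : ℕ) : ℂ :=
  if x < 13 then Q.p x else if h : Q.X x then h.some else 0

def ex (x : ℕ) : Prop := x < 13 ∨ Q.X x

open Classical in
noncomputable def t (c x : ℕ) : ℝ := if h : Q.P x ∈ Q.γ c '' Icc 0 1 then h.choose else 0

theorem P_lt {x : ℕ} (h : x < 13) : Q.P x = Q.p x := by
  unfold P
  rw [if_pos h]

theorem P_ge {x : ℕ} (h : ¬ x < 13) (hX : Q.X x) :
    Q.P x ∈ Q.γ (pa x) '' Icc 0 1 ∧ Q.P x ∈ Q.γ (pb x) '' Icc 0 1 := by
  unfold P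
  rw [if_neg h, dif_pos hX]
  exact hX.some_mem

theorem P_mem {c x : ℕ} (hc : c < 17) (hx : x < 19) (ho : onc c x = true) (he : Q.ex x) :
    Q.P x ∈ Q.γ c '' Icc 0 1 := by
  by_cases h : x < 13
  · rw [Q.P_lt h]
    exact (Q.inc c hc x h).mpr ho
  · rcases he with he | he
    · exact absurd he h
    · have h1 := Q.P_ge h he
      rcases onc_opt c hc x hx (by omega) ho with h2 | h2
      · rw [h2]; exact h1.1
      · rw [h2]; exact h1.2

theorem P_inj_aux {x y : ℕ} (hx : x < 13) (hy : y < 19) (hy13 : ¬ y < 13) (ey : Q.X y)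
    (h : Q.P x = Q.P y) : False := by
  have h1 := Q.P_ge hy13 ey
  rw [← h, Q.P_lt hx] at h1
  obtain ⟨a1, a2, -⟩ := pab y hy (by omega)
  exact no_common y hy (by omega) x hx
    ⟨(Q.inc _ a1 x hx).mp h1.1, (Q.inc _ a2 x hx).mp h1.2⟩

theorem P_inj {x y : ℕ} (hx : x < 19) (hy : y < 19) (ex : Q.ex x) (ey : Q.ex y)
    (h : Q.P x = Q.P y) : x = y := by
  by_cases hx13 : x < 13
  · by_cases hy13 : y < 13
    · rw [Q.P_lt hx13, Q.P_lt hy13] at h
      exact Q.pinj x hx13 y hy13 h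
    · exact (Q.P_inj_aux hx13 hy hy13 (ey.resolve_left hy13) h).elim
  · by_cases hy13 : y < 13
    · exact (Q.P_inj_aux hy13 hx hx13 (ex.resolve_left hx13) h.symm).elim
    · by_contra hne
      have h1 := Q.P_ge hx13 (ex.resolve_left hx13)
      have h2 := Q.P_ge hy13 (ey.resolve_left hy13)
      rw [← h] at h2
      obtain ⟨a1, a2, -⟩ := pab x hx (by omega)
      obtain ⟨a3, a4, -⟩ := pab y hy (by omega)
      obtain ⟨u, hu, w, hw, q, hq, v, hv, huw, o1, o2, o3⟩ := tri x hx (by omega) y hy (by omega) hne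
      have key : ∀ c ∈ [pa x, pb x, pa y, pb y], c < 17 ∧ Q.P x ∈ Q.γ c '' Icc 0 1 := by
        intro c hc
        simp only [List.mem_cons, List.not_mem_nil, or_false] at hc
        rcases hc with rfl | rfl | rfl | rfl
        · exact ⟨a1, h1.1⟩
        · exact ⟨a2, h1.2⟩
        · exact ⟨a3, h2.1⟩
        · exact ⟨a4, h2.2⟩
      obtain ⟨u1, u2⟩ := key u hu
      obtain ⟨w1, w2⟩ := key w hw
      obtain ⟨q1, q2⟩ := key q hq
      have h3 : Q.P x = Q.p v := Q.sub u u1 w w1 huw ⟨u2, w2⟩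
        ⟨(Q.inc u u1 v hv).mpr o1, (Q.inc w w1 v hv).mpr o2⟩
      rw [h3] at q2
      rw [(Q.inc q q1 v hv).mp q2] at o3
      exact absurd o3 (by decide)

/-- The realization. -/
noncomputable def rz : Rz 17 where
  P := Q.P
  ex := Q.ex
  γ := Q.γ
  t := Q.t
  exd x hx := Or.inl hx
  cont := Q.cont
  inj := Q.inj
  tm c hc x hx ho he := by
    have h := Q.P_mem hc hx ho he
    have e : Q.t c x = h.choose := by
      unfold t
      rw [dif_pos h]
    rw [e]
    exact h.choose_spec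
  pinj x hx y hy ex ey h := Q.P_inj hx hy ex ey h
  meet c hc d hd hcd h31 z hz hz' := by
    by_cases h13 : com c d < 13
    · refine ⟨Or.inl h13, ?_⟩
      obtain ⟨-, o1, o2⟩ := com_spec c hc d hd hcd h31
      rw [Q.P_lt h13]
      exact Q.sub c hc d hd hcd ⟨hz, hz'⟩
        ⟨(Q.inc c hc _ h13).mpr o1, (Q.inc d hd _ h13).mpr o2⟩
    · obtain ⟨-, h⟩ := com_opt c hc d hd hcd h31 (by omega)
      have hX : Q.X (com c d) := by
        rcases h with ⟨h1, h2⟩ | ⟨h1, h2⟩
        · exact ⟨z, by rw [← h1]; exact hz, by rw [← h2]; exact hz'⟩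
        · exact ⟨z, by rw [← h1]; exact hz', by rw [← h2]; exact hz⟩
      refine ⟨Or.inr hX, ?_⟩
      have h2 := Q.P_ge h13 hX
      rcases h with ⟨h3, h4⟩ | ⟨h3, h4⟩
      · rw [← h3, ← h4] at h2
        exact Q.sub c hc d hd hcd ⟨hz, hz'⟩ h2
      · rw [← h3, ← h4] at h2
        exact Q.sub c hc d hd hcd ⟨hz, hz'⟩ ⟨h2.2, h2.1⟩

end Pre

/-- The matrix: 13 rows and 17 columns. -/
def MA : Matrix (Fin 13) (Fin 17) Bool := fun x c => onc c.1 x.1

theorem curve_cont {C : Set (ℝ × ℝ)} (h : IsCurve C) : ∃ g : ℝ → ℂ, ContinuousOn g (Icc 0 1) ∧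
    InjOn g (Icc 0 1) ∧ g '' Icc 0 1 = Complex.equivRealProd.symm '' C := by
  obtain ⟨f, hf, hi, rfl⟩ := h
  have he : Continuous (Complex.equivRealProd.symm) := Complex.equivRealProdCLM.symm.continuous
  refine ⟨fun s => Complex.equivRealProd.symm (f (projIcc 0 1 zero_le_one s)), ?_, ?_, ?_⟩
  · exact (he.comp (hf.comp continuous_projIcc)).continuousOn
  · intro s hs s' hs' hss
    have h1 := hi (Complex.equivRealProd.symm.injective hss)
    rw [projIcc_of_mem zero_le_one hs, projIcc_of_mem zero_le_one hs'] at h1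
    exact congrArg Subtype.val h1
  · ext z
    constructor
    · rintro ⟨s, -, rfl⟩
      exact ⟨_, ⟨_, rfl⟩, rfl⟩
    · rintro ⟨_, ⟨u, rfl⟩, rfl⟩
      refine ⟨u.1, u.2, ?_⟩
      show Complex.equivRealProd.symm (f (projIcc 0 1 zero_le_one u.1)) = _
      rw [projIcc_val]

theorem toPre (h : RealizableByCurves MA.transpose) : Nonempty Pre := by
  obtain ⟨p, C, hp, hC, hinc, hsub⟩ := h
  choose g g1 g2 g3 using fun i => curve_cont (hC i)
  have ginj := Complex.equivRealProd.symm.injective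
  refine ⟨{ p := fun x => if h : x < 13 then Complex.equivRealProd.symm (p ⟨x, h⟩) else 0
            γ := fun c => if h : c < 17 then g ⟨c, h⟩ else 0
            pinj := ?_, cont := ?_, inj := ?_, inc := ?_, sub := ?_ }⟩
  · intro x hx y hy h
    simp only [hx, hy, dif_pos] at h
    have := hp (ginj h)
    exact congrArg Fin.val this
  · intro c hc
    simp only [hc, dif_pos]
    exact g1 _
  · intro c hc
    simp only [hc, dif_pos]
    exact g2 _
  · intro c hc x hx
    simp only [hc, hx, dif_pos]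
    rw [g3, ginj.mem_set_image, hinc]
    rfl
  · intro c hc d hd hcd
    simp only [hc, hd, dif_pos]
    rw [g3, g3, ← image_inter ginj]
    exact (hsub _ _ (fun h => hcd (congrArg Fin.val h))).image _

end Pool.Agent.T6.H80.MT
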