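import Mathlib
import Pool.Agent.T6.H80.MT.Defs

set_option autoImplicit false

/-!
Polygonal arcs with integer vertices.
-/

namespace Pool.Agent.T6.H80.MT

open Set

def toR (a : ℤ × ℤ) : ℝ × ℝ := ((a.1 : ℝ), (a.2 : ℝ))

/-- Orientation determinant. -/
def ori (a b c : ℤ × ℤ) : ℤ := (b.1 - a.1) * (c.2 - a.2) - (b.2 - a.2) * (c.1 - a.1)

noncomputable def oriR (a b : ℤ × ℤ) (z : ℝ × ℝ) : ℝ :=
  ((b.1 : ℝ) - a.1) * (z.2 - a.2) - ((b.2 : ℝ) - a.2) * (z.1 - a.1)

theorem oriR_toR (a b c : ℤ × ℤ) : oriR a b (toR c) = (ori a b c : ℝ) := by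
  simp only [oriR, toR, ori]
  push_cast
  ring

theorem toR_inj {a b : ℤ × ℤ} (h : toR a = toR b) : a = b := by
  have h1 := congrArg Prod.fst h
  have h2 := congrArg Prod.snd h
  simp only [toR] at h1 h2
  exact Prod.ext (by exact_mod_cast h1) (by exact_mod_cast h2)

/-- The segment. -/
def sg (s : (ℤ × ℤ) × (ℤ × ℤ)) : Set (ℝ × ℝ) := segment ℝ (toR s.1) (toR s.2)

theorem sg_param {c d : ℤ × ℤ} {z : ℝ × ℝ} (h : z ∈ sg (c, d)) :
    ∃ s : ℝ, 0 ≤ s ∧ s ≤ 1 ∧ z.1 = (1 - s) * c.1 + s * d.1 ∧ z.2 = (1 - s) * c.2 + s * d.2 := by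
  obtain ⟨u, v, hu, hv, huv, rfl⟩ := h
  refine ⟨v, hv, by linarith, ?_, ?_⟩
  · have : u = 1 - v := by linarith
    simp [toR, this]
  · have : u = 1 - v := by linarith
    simp [toR, this]

theorem oriR_sg {a b c d : ℤ × ℤ} {z : ℝ × ℝ} (h : z ∈ sg (c, d)) :
    ∃ s : ℝ, 0 ≤ s ∧ s ≤ 1 ∧ oriR a b z = (1 - s) * (ori a b c : ℝ) + s * (ori a b d : ℝ) ∧
      z.1 = (1 - s) * c.1 + s * d.1 ∧ z.2 = (1 - s) * c.2 + s * d.2 := by
  obtain ⟨s, h0, h1, e1, e2⟩ := sg_param h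
  refine ⟨s, h0, h1, ?_, e1, e2⟩
  simp only [oriR, ori, e1, e2]
  push_cast
  ring

theorem oriR_self {a b : ℤ × ℤ} {z : ℝ × ℝ} (h : z ∈ sg (a, b)) : oriR a b z = 0 := by
  obtain ⟨s, h0, h1, e, -⟩ := oriR_sg (a := a) (b := b) h
  rw [e]
  have h1 : ori a b a = 0 := by simp [ori]
  have h2 : ori a b b = 0 := by simp only [ori]; ring
  rw [h1, h2]
  simp

/-- `c` and `d` are strictly on the same side of the line `a b`. -/
def side (a b c d : ℤ × ℤ) : Bool :=
  (decide (0 < ori a b c) && decide (0 < ori a b d)) ||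
    (decide (ori a b c < 0) && decide (ori a b d < 0))

theorem side_spec {a b c d : ℤ × ℤ} (h : side a b c d = true) {z : ℝ × ℝ} (h1 : z ∈ sg (a, b))
    (h2 : z ∈ sg (c, d)) : False := by
  have h0 := oriR_self h1
  obtain ⟨s, s0, s1, e, -⟩ := oriR_sg (a := a) (b := b) h2
  rw [h0] at e
  simp only [side, Bool.or_eq_true, Bool.and_eq_true, decide_eq_true_eq] at h
  rcases h with ⟨a1, a2⟩ | ⟨a1, a2⟩
  · have b1 : (0 : ℝ) < (ori a b c : ℝ) := by exact_mod_cast a1
    have b2 : (0 : ℝ) < (ori a b d : ℝ) := by exact_mod_cast a2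
    rcases eq_or_lt_of_le s0 with hs | hs
    · rw [← hs] at e; linarith
    · nlinarith [mul_pos hs b2, mul_nonneg (by linarith : (0 : ℝ) ≤ 1 - s) b1.le]
  · have b1 : (ori a b c : ℝ) < 0 := by exact_mod_cast a1
    have b2 : (ori a b d : ℝ) < 0 := by exact_mod_cast a2
    rcases eq_or_lt_of_le s0 with hs | hs
    · rw [← hs] at e; linarith
    · nlinarith [mul_neg_of_pos_of_neg hs b2,
        mul_nonpos_of_nonneg_of_nonpos (by linarith : (0 : ℝ) ≤ 1 - s) b1.le]

/-- Disjoint segments. -/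
def dis (s s' : (ℤ × ℤ) × (ℤ × ℤ)) : Bool := side s.1 s.2 s'.1 s'.2 || side s'.1 s'.2 s.1 s.2

theorem dis_spec {s s' : (ℤ × ℤ) × (ℤ × ℤ)} (h : dis s s' = true) {z : ℝ × ℝ} (h1 : z ∈ sg s)
    (h2 : z ∈ sg s') : False := by
  simp only [dis, Bool.or_eq_true] at h
  rcases h with h | h
  · exact side_spec h h1 h2
  · exact side_spec h h2 h1

theorem sg_symm (a b : ℤ × ℤ) : sg (a, b) = sg (b, a) := segment_symm ℝ _ _

/-- Two segments from a common endpoint with different directions. -/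
theorem touch {a b d : ℤ × ℤ} (h : ori a b d ≠ 0) {z : ℝ × ℝ} (h1 : z ∈ sg (a, b))
    (h2 : z ∈ sg (a, d)) : z = toR a := by
  have h0 := oriR_self h1
  obtain ⟨s, s0, s1, e, e1, e2⟩ := oriR_sg (a := a) (b := b) h2
  have h3 : ori a b a = 0 := by simp [ori]
  rw [h0, h3] at e
  have h4 : (ori a b d : ℝ) ≠ 0 := by exact_mod_cast h
  have h5 : s = 0 := by
    have : s * (ori a b d : ℝ) = 0 := by push_cast at e; linarith
    rcases mul_eq_zero.mp this with h | h
    · exact h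
    · exact absurd h h4
  rw [h5] at e1 e2
  refine Prod.ext ?_ ?_
  · rw [e1]; simp [toR]
  · rw [e2]; simp [toR]

/-- The segments meet at most in a common endpoint. -/
def st (s s' : (ℤ × ℤ) × (ℤ × ℤ)) : Bool :=
  dis s s' ||
    ((decide (s.1 = s'.1) && decide (ori s.1 s.2 s'.2 ≠ 0)) ||
    ((decide (s.1 = s'.2) && decide (ori s.1 s.2 s'.1 ≠ 0)) ||
    ((decide (s.2 = s'.1) && decide (ori s.2 s.1 s'.2 ≠ 0)) ||
    (decide (s.2 = s'.2) && decide (ori s.2 s.1 s'.1 ≠ 0)))))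

theorem st_spec {s s' : (ℤ × ℤ) × (ℤ × ℤ)} (h : st s s' = true) {z : ℝ × ℝ} (h1 : z ∈ sg s)
    (h2 : z ∈ sg s') : ∃ w, (w = s.1 ∨ w = s.2) ∧ (w = s'.1 ∨ w = s'.2) ∧ z = toR w := by
  obtain ⟨a, b⟩ := s
  obtain ⟨c, d⟩ := s'
  simp only [st, Bool.or_eq_true, Bool.and_eq_true, decide_eq_true_eq] at h
  rcases h with h | ⟨h, h'⟩ | ⟨h, h'⟩ | ⟨h, h'⟩ | ⟨h, h'⟩
  · exact (dis_spec h h1 h2).elim
  · subst h
    exact ⟨_, Or.inl rfl, Or.inl rfl, touch h' h1 h2⟩
  · subst h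
    rw [sg_symm c] at h2
    exact ⟨_, Or.inl rfl, Or.inr rfl, touch h' h1 h2⟩
  · subst h
    rw [sg_symm a] at h1
    exact ⟨_, Or.inr rfl, Or.inl rfl, touch h' h1 h2⟩
  · subst h
    rw [sg_symm a] at h1
    rw [sg_symm c] at h2
    exact ⟨_, Or.inr rfl, Or.inr rfl, touch h' h1 h2⟩

/-- The segments of a polygonal line. -/
def sgs : List (ℤ × ℤ) → List ((ℤ × ℤ) × (ℤ × ℤ))
  | b :: a :: l => (a, b) :: sgs (a :: l)
  | _ => []

/-- The polygonal line. -/
def ps (l : List (ℤ × ℤ)) : Set (ℝ × ℝ) := {z | ∃ s ∈ sgs l, z ∈ sg s}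

/-- An arc with the endpoint `b`. -/
def ArcTo (C : Set (ℝ × ℝ)) (b : ℝ × ℝ) : Prop :=
  ∃ f : ℝ → ℝ × ℝ, Continuous f ∧ InjOn f (Icc 0 1) ∧ f '' Icc 0 1 = C ∧ f 1 = b

theorem line_arc {a b : ℝ × ℝ} (h : a ≠ b) : ArcTo (segment ℝ a b) b := by
  refine ⟨fun t => AffineMap.lineMap a b t, ?_, ?_, ?_, ?_⟩
  · exact AffineMap.lineMap_continuous
  · intro s _ t _ hst
    exact AffineMap.lineMap_injective ℝ h hst
  · rw [segment_eq_image_lineMap]
  · simp

theorem glue {C : Set (ℝ × ℝ)} {a b : ℝ × ℝ} (hC : ArcTo C a) (hab : a ≠ b)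
    (hint : ∀ z ∈ C, z ∈ segment ℝ a b → z = a) : ArcTo (C ∪ segment ℝ a b) b := by
  obtain ⟨f, hf, hi, him, h1⟩ := hC
  have hl : Continuous fun t : ℝ => (AffineMap.lineMap a b (2 * t - 1) : ℝ × ℝ) :=
    AffineMap.lineMap_continuous.comp (by fun_prop)
  have hmemC : ∀ s : ℝ, 0 ≤ s → s ≤ 1 / 2 → f (2 * s) ∈ C := by
    intro s h0 h2
    rw [← him]
    exact ⟨2 * s, ⟨by linarith, by linarith⟩, rfl⟩
  have hmemS : ∀ s : ℝ, 1 / 2 ≤ s → s ≤ 1 →
      (AffineMap.lineMap a b (2 * s - 1) : ℝ × ℝ) ∈ segment ℝ a b := by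
    intro s h0 h2
    rw [segment_eq_image_lineMap]
    exact ⟨2 * s - 1, ⟨by linarith, by linarith⟩, rfl⟩
  have hcross : ∀ s t : ℝ, 0 ≤ s → s ≤ 1 / 2 → 1 / 2 < t → t ≤ 1 →
      f (2 * s) ≠ (AffineMap.lineMap a b (2 * t - 1) : ℝ × ℝ) := by
    intro s t s0 s1 t0 t1 he
    have h2 := hmemC s s0 s1
    rw [he] at h2
    have h3 := hint _ h2 (hmemS t t0.le t1)
    have h4 : (AffineMap.lineMap a b (2 * t - 1) : ℝ × ℝ) = AffineMap.lineMap a b (0 : ℝ) := by
      rw [h3]; simp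
    have h5 := AffineMap.lineMap_injective ℝ hab h4
    linarith
  refine ⟨fun t => if t ≤ 1 / 2 then f (2 * t) else AffineMap.lineMap a b (2 * t - 1), ?_, ?_,
    ?_, ?_⟩
  · refine Continuous.if_le (hf.comp (by fun_prop)) hl continuous_id continuous_const ?_
    intro x hx
    have hx' : x = 1 / 2 := hx
    subst hx'
    norm_num
    exact h1
  · intro s hs t ht hst
    simp only at hst
    by_cases h2 : s ≤ 1 / 2
    · by_cases h3 : t ≤ 1 / 2
      · rw [if_pos h2, if_pos h3] at hst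
        have := hi ⟨by linarith [hs.1], by linarith⟩ ⟨by linarith [ht.1], by linarith⟩ hst
        linarith
      · rw [if_pos h2, if_neg h3] at hst
        exact (hcross s t hs.1 h2 (not_le.mp h3) ht.2 hst).elim
    · by_cases h3 : t ≤ 1 / 2
      · rw [if_neg h2, if_pos h3] at hst
        exact (hcross t s ht.1 h3 (not_le.mp h2) hs.2 hst.symm).elim
      · rw [if_neg h2, if_neg h3] at hst
        have := AffineMap.lineMap_injective ℝ hab hst
        linarith
  · ext z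
    constructor
    · rintro ⟨s, hs, rfl⟩
      by_cases h2 : s ≤ 1 / 2
      · left
        simp only [if_pos h2]
        exact hmemC s hs.1 h2
      · right
        simp only [if_neg h2]
        exact hmemS s (not_le.mp h2).le hs.2
    · rintro (hz | hz)
      · rw [← him] at hz
        obtain ⟨s, hs, rfl⟩ := hz
        refine ⟨s / 2, ⟨by linarith [hs.1], by linarith [hs.2]⟩, ?_⟩
        simp only
        rw [if_pos (by linarith [hs.2])]
        congr 1
        ring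
      · rw [segment_eq_image_lineMap] at hz
        obtain ⟨s, hs, rfl⟩ := hz
        rcases eq_or_lt_of_le hs.1 with h0 | h0
        · refine ⟨1 / 2, ⟨by norm_num, by norm_num⟩, ?_⟩
          subst h0
          norm_num
          exact h1
        · refine ⟨(s + 1) / 2, ⟨by linarith, by linarith [hs.2]⟩, ?_⟩
          simp only
          rw [if_neg (by linarith)]
          congr 1
          ring
  · simp only
    rw [if_neg (by norm_num)]
    norm_num

theorem ArcTo.isCurve {C : Set (ℝ × ℝ)} {b : ℝ × ℝ} (h : ArcTo C b) : IsCurve C := by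
  obtain ⟨f, hf, hi, him, -⟩ := h
  refine ⟨fun s => f s.1, hf.comp continuous_subtype_val, ?_, ?_⟩
  · intro s t hst
    exact Subtype.ext (hi s.2 t.2 hst)
  · rw [← him]
    ext z
    constructor
    · rintro ⟨s, rfl⟩
      exact ⟨s.1, s.2, rfl⟩
    · rintro ⟨s, hs, rfl⟩
      exact ⟨⟨s, hs⟩, rfl⟩

/-- The next segment meets the former ones only in its first endpoint. -/
def nx (a b : ℤ × ℤ) (s : (ℤ × ℤ) × (ℤ × ℤ)) : Bool :=
  dis (a, b) s || ((decide (s.1 = a) && decide (ori a b s.2 ≠ 0)) ||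
    (decide (s.2 = a) && decide (ori a b s.1 ≠ 0)))

theorem nx_spec {a b : ℤ × ℤ} {s : (ℤ × ℤ) × (ℤ × ℤ)} (h : nx a b s = true) {z : ℝ × ℝ}
    (h1 : z ∈ sg (a, b)) (h2 : z ∈ sg s) : z = toR a := by
  obtain ⟨c, d⟩ := s
  simp only [nx, Bool.or_eq_true, Bool.and_eq_true, decide_eq_true_eq] at h
  rcases h with h | ⟨h, h'⟩ | ⟨h, h'⟩
  · exact (dis_spec h h1 h2).elim
  · subst h
    exact touch h' h1 h2
  · subst h
    rw [sg_symm c] at h2
    exact touch h' h1 h2

/-- A simple polygonal line. -/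
def simp1 : List (ℤ × ℤ) → Bool
  | b :: a :: l => decide (a ≠ b) && ((sgs (a :: l)).all (nx a b) &&
      (l.isEmpty || simp1 (a :: l)))
  | _ => false

theorem simp1_arc (l : List (ℤ × ℤ)) (a : ℤ × ℤ) (h : simp1 (a :: l) = true) :
    ArcTo (ps (a :: l)) (toR a) := by
  induction l generalizing a with
  | nil => exact absurd h (by simp [simp1])
  | cons c l ih =>
    simp only [simp1, Bool.and_eq_true, decide_eq_true_eq, Bool.or_eq_true] at h
    obtain ⟨h1, h2, h3⟩ := h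
    have hne : toR c ≠ toR a := fun hh => h1 (toR_inj hh)
    have hps : ps (a :: c :: l) = ps (c :: l) ∪ segment ℝ (toR c) (toR a) := by
      ext z
      simp only [ps, sgs, List.mem_cons, mem_ofPred_eq, mem_union]
      constructor
      · rintro ⟨s, rfl | hs, hz⟩
        · exact Or.inr hz
        · exact Or.inl ⟨s, hs, hz⟩
      · rintro (⟨s, hs, hz⟩ | hz)
        · exact ⟨s, Or.inr hs, hz⟩
        · exact ⟨(c, a), Or.inl rfl, hz⟩
    rcases h3 with h3 | h3
    · have : l = [] := List.isEmpty_iff.mp h3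
      subst this
      have : ps [a, c] = segment ℝ (toR c) (toR a) := by
        rw [hps]
        have : ps [c] = ∅ := by
          ext z
          simp [ps, sgs]
        rw [this, empty_union]
      rw [this]
      exact line_arc hne
    · rw [hps]
      refine glue (ih c h3) hne ?_
      rintro z ⟨s, hs, hz⟩ hz'
      have := List.all_eq_true.mp h2 s hs
      exact nx_spec this hz' hz

end Pool.Agent.T6.H80.MT
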