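import Mathlib
import Pool.Agent.T6.H80.MT.Poly
import Pool.Agent.T6.H80.MT.NonReal
import Pool.Agent.T6.H80.MT.Dat.All

set_option autoImplicit false

/-!
The matrix is realizable; its transpose is not.
-/

namespace Pool.Agent.T6.H80.MT

open Set

/-- Coordinates of the 17 points and of one further vertex. -/
def crd : List (ℤ × ℤ) := [(16, 12), (31, 9), (10, 5), (14, 16), (0, 0), (19, 5), (40, 0), (23, 18), (29, 40), (34, 12), (18, 20), (35, 7), (19, 2), (16, 16), (29, 30), (22, 13), (24, 25), (11, 3)]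

def vx (j : ℕ) : ℤ × ℤ := crd.getD j (0, 0)

/-- Vertices of the 13 polygonal lines. -/
def pth : List (List ℕ) := [[12, 5, 0, 13, 10], [3, 13, 7, 14, 9], [11, 1, 15, 0, 3], [11, 6, 12, 17, 2], [0, 4, 6, 9], [11, 9, 8, 10, 16], [3, 8, 6, 5], [1, 14, 8, 4, 12], [2, 0, 7, 8], [6, 1, 7, 10], [2, 4, 3, 10], [4, 17, 5, 15, 7, 16], [2, 5, 1, 9]]

def pl (i : ℕ) : List (ℤ × ℤ) := (pth.getD i []).map vx

theorem pl_simp : ∀ i < 13, simp1 (pl i) = true := by decide +kernel

theorem pl_in : ∀ i < 13, ∀ j < 17, onc j i = true →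
    (sgs (pl i)).any (fun s => decide (s.1 = vx j) || decide (s.2 = vx j)) = true := by
  decide +kernel

theorem pl_out : ∀ i < 13, ∀ j < 17, onc j i = false →
    (sgs (pl i)).all (fun s => decide (ori s.1 s.2 (vx j) ≠ 0)) = true := by
  decide +kernel

theorem vx_inj : ∀ i < 17, ∀ j < 17, vx i = vx j → i = j := by decide +kernel

theorem pl_meet : ∀ i < 13, ∀ j < 13, i ≠ j →
    (sgs (pl i)).all (fun s => (sgs (pl j)).all (fun s' => st s s')) = true := by
  decide +kernel

/-- The vertices of a polygonal line. -/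
def vts (l : List (ℤ × ℤ)) : List (ℤ × ℤ) := (sgs l).map Prod.fst ++ (sgs l).map Prod.snd

theorem pl_com : ∀ i < 13, ∀ j < 13, i ≠ j →
    (vts (pl i)).all (fun w => (vts (pl i)).all (fun w' =>
      decide (w ∈ vts (pl j) → w' ∈ vts (pl j) → w = w'))) = true := by
  decide +kernel

theorem ps_arc {i : ℕ} (hi : i < 13) : IsCurve (ps (pl i)) := by
  have h := pl_simp i hi
  revert h
  generalize pl i = l
  intro h
  match l, h with
  | [], h => exact absurd h (by simp [simp1])
  | a :: l, h => exact (simp1_arc l a h).isCurve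

theorem real_MA : RealizableByCurves MA := by
  refine ⟨fun j => toR (vx j.1), fun i => ps (pl i.1), ?_, fun i => ps_arc i.2, ?_, ?_⟩
  · intro i j h
    exact Fin.ext (vx_inj i.1 i.2 j.1 j.2 (toR_inj h))
  · intro i j
    have hMA : MA i j = onc j.1 i.1 := rfl
    rw [hMA]
    constructor
    · intro hm
      by_contra hc
      have hc' : onc j.1 i.1 = false := by simpa using hc
      have h1 := List.all_eq_true.mp (pl_out i.1 i.2 j.1 j.2 hc')
      obtain ⟨s, hs, hz⟩ := hm
      have h2 := h1 s hs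
      rw [decide_eq_true_eq] at h2
      apply h2
      have h3 := oriR_self (a := s.1) (b := s.2) hz
      rw [oriR_toR] at h3
      exact_mod_cast h3
    · intro ho
      have h1 := List.any_eq_true.mp (pl_in i.1 i.2 j.1 j.2 ho)
      obtain ⟨s, hs, h2⟩ := h1
      rw [Bool.or_eq_true, decide_eq_true_eq, decide_eq_true_eq] at h2
      refine ⟨s, hs, ?_⟩
      show toR (vx j.1) ∈ sg s
      rcases h2 with h2 | h2
      · rw [← h2]; exact left_mem_segment ℝ _ _
      · rw [← h2]; exact right_mem_segment ℝ _ _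
  · intro i j hij
    have hij' : i.1 ≠ j.1 := fun h => hij (Fin.ext h)
    have h1 := List.all_eq_true.mp (pl_meet i.1 i.2 j.1 j.2 hij')
    have h2 := List.all_eq_true.mp (pl_com i.1 i.2 j.1 j.2 hij')
    have key : ∀ z, z ∈ ps (pl i.1) → z ∈ ps (pl j.1) →
        ∃ w, w ∈ vts (pl i.1) ∧ w ∈ vts (pl j.1) ∧ z = toR w := by
      rintro z ⟨s, hs, hz⟩ ⟨s', hs', hz'⟩
      have h3 := List.all_eq_true.mp (h1 s hs) s' hs'
      obtain ⟨w, hw, hw', he⟩ := st_spec h3 hz hz'
      refine ⟨w, ?_, ?_, he⟩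
      · rw [vts, List.mem_append]
        rcases hw with rfl | rfl
        · exact Or.inl (List.mem_map.mpr ⟨s, hs, rfl⟩)
        · exact Or.inr (List.mem_map.mpr ⟨s, hs, rfl⟩)
      · rw [vts, List.mem_append]
        rcases hw' with rfl | rfl
        · exact Or.inl (List.mem_map.mpr ⟨s', hs', rfl⟩)
        · exact Or.inr (List.mem_map.mpr ⟨s', hs', rfl⟩)
    rintro z ⟨hz1, hz2⟩ z' ⟨hz1', hz2'⟩
    obtain ⟨w, w1, w2, rfl⟩ := key z hz1 hz2
    obtain ⟨w', w1', w2', rfl⟩ := key z' hz1' hz2'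
    have h3 := List.all_eq_true.mp (h2 w w1) w' w1'
    rw [decide_eq_true_eq] at h3
    rw [h3 w2 w2']

theorem nonreal_MA : ¬ RealizableByCurves MA.transpose := by
  intro h
  obtain ⟨Q⟩ := toPre h
  exact noRz Q.rz

end Pool.Agent.T6.H80.MT
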