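import Mathlib
import Pool.Agent.T6.H80.MT.Basic

set_option autoImplicit false

/-!
The checker: codes of literals, clause masks, resolution steps and Kuratowski certificates.
-/

namespace Pool.Agent.T6.H80.MT

open Set

/-! ### Elementary functions -/

def neq (a b : ℕ) : Bool := not (Nat.beq a b)

theorem neq_spec {a b : ℕ} (h : neq a b = true) : a ≠ b := by
  rintro rfl
  unfold neq at h
  rw [Nat.beq_refl] at h
  exact absurd h (by decide)

/-- Membership in a list. -/
noncomputable def memb (s : ℕ) (L : List ℕ) : Bool :=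
  List.rec (motive := fun _ => Bool) false
    (fun a _ ih => Bool.rec (motive := fun _ => Bool) ih true (Nat.beq a s)) L

theorem memb_spec {s : ℕ} {L : List ℕ} (h : memb s L = true) : s ∈ L := by
  induction L with
  | nil => exact absurd h (by simp [memb])
  | cons a l ih =>
    have e : memb s (a :: l) =
      Bool.rec (motive := fun _ => Bool) (memb s l) true (Nat.beq a s) := rfl
    rw [e] at h
    cases hb : Nat.beq a s with
    | true => rw [Nat.eq_of_beq_eq_true hb]; exact List.mem_cons_self
    | false => rw [hb] at h; exact List.mem_cons_of_mem _ (ih h)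

/-- The code with index `i` in the table `vt` (entries of 21 bits). -/
def vat (vt i : ℕ) : ℕ := Nat.land (Nat.shiftRight vt (Nat.mul 21 i)) 2097151

/-- The meaning of a signed code. -/
def sl {k : ℕ} (R : Rz k) (s : ℕ) : Prop := if s % 2 = 0 then ev R (s / 2) else ¬ ev R (s / 2)

/-- The meaning of a literal number. -/
def lit {k : ℕ} (vt : ℕ) (R : Rz k) (l : ℕ) : Prop :=
  if l % 2 = 0 then ev R (vat vt (l / 2)) else ¬ ev R (vat vt (l / 2))

/-- The meaning of a clause mask. -/
def Sat {k : ℕ} (vt : ℕ) (R : Rz k) (m : ℕ) : Prop := ∃ l, m.testBit l = true ∧ lit vt R l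

theorem not_Sat_zero {k : ℕ} (vt : ℕ) (R : Rz k) : ¬ Sat vt R 0 := by
  rintro ⟨l, h, -⟩
  simp at h

/-- The signed code of a literal number. -/
def scode (vt l : ℕ) : ℕ := 2 * vat vt (l / 2) + l % 2

theorem sl_scode {k : ℕ} (vt : ℕ) (R : Rz k) (l : ℕ) : sl R (scode vt l) ↔ lit vt R l := by
  have e2 : (2 * vat vt (l / 2) + l % 2) % 2 = l % 2 := by omega
  have e3 : (2 * vat vt (l / 2) + l % 2) / 2 = vat vt (l / 2) := by omega
  unfold sl lit scode
  rw [e2, e3]

/-- Read a list of literal numbers (increased by one, ten bits each, ended by zero); compute the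
list of their signed codes and their mask. -/
noncomputable def decK (vt fuel : ℕ) : ℕ → ℕ → List ℕ → (List ℕ → ℕ → ℕ → Bool) → Bool :=
  Nat.rec (motive := fun _ => ℕ → ℕ → List ℕ → (List ℕ → ℕ → ℕ → Bool) → Bool)
    (fun _ _ _ _ => false)
    (fun _ ih st m acc k => force (Nat.land st 1023) fun d => force (Nat.shiftRight st 10) fun st' =>
      Bool.rec (motive := fun _ => Bool)
        (force (Nat.sub d 1) fun l =>
          force (Nat.add (Nat.mul 2 (vat vt (Nat.shiftRight l 1))) (Nat.land l 1)) fun s =>
          force (Nat.lor m (Nat.shiftLeft 1 l)) fun m' => ih st' m' (s :: acc) k)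
        (k acc m st') (Nat.beq d 0)) fuel

theorem testBit_xor' (a b i : ℕ) : (Nat.xor a b).testBit i = (a.testBit i ^^ b.testBit i) :=
  Nat.testBit_xor a b i

theorem testBit_land (a b i : ℕ) : (Nat.land a b).testBit i = (a.testBit i && b.testBit i) :=
  Nat.testBit_and a b i

theorem testBit_lor (a b i : ℕ) : (Nat.lor a b).testBit i = (a.testBit i || b.testBit i) :=
  Nat.testBit_or a b i

theorem shiftLeft_one (e : ℕ) : Nat.shiftLeft 1 e = 2 ^ e := by
  show 1 <<< e = 2 ^ e
  rw [Nat.shiftLeft_eq, one_mul]

theorem testBit_log2 {m : ℕ} (h : m ≠ 0) : m.testBit (Nat.log2 m) = true := by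
  rw [Nat.testBit_eq_decide_div_mod_eq, decide_eq_true_eq]
  have h1 : 2 ^ Nat.log2 m ≤ m := Nat.log2_self_le h
  have h2 : m < 2 ^ (Nat.log2 m + 1) := Nat.lt_log2_self
  have h3 : m / 2 ^ Nat.log2 m = 1 := by
    apply Nat.div_eq_of_lt_le
    · omega
    · rw [pow_succ] at h2; omega
  rw [h3]

theorem decK_aux (vt fuel : ℕ) {st m : ℕ} {acc : List ℕ} {f : List ℕ → ℕ → ℕ → Bool}
    (hacc : ∀ s, s ∈ acc ↔ ∃ l, m.testBit l = true ∧ s = scode vt l)
    (h : decK vt fuel st m acc f = true) :
    ∃ L m' st', (∀ s, s ∈ L ↔ ∃ l, m'.testBit l = true ∧ s = scode vt l) ∧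
      f L m' st' = true := by
  induction fuel generalizing st m acc with
  | zero => exact absurd h (by simp [decK])
  | succ n ih =>
    have e : decK vt (n + 1) st m acc f =
      force (Nat.land st 1023) fun d => force (Nat.shiftRight st 10) fun st' =>
      Bool.rec (motive := fun _ => Bool)
        (force (Nat.sub d 1) fun l =>
          force (Nat.add (Nat.mul 2 (vat vt (Nat.shiftRight l 1))) (Nat.land l 1)) fun s =>
          force (Nat.lor m (Nat.shiftLeft 1 l)) fun m' => decK vt n st' m' (s :: acc) f)
        (f acc m st') (Nat.beq d 0) := rfl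
    rw [e] at h
    simp only [force_eq] at h
    cases hb : Nat.beq (Nat.land st 1023) 0 with
    | true =>
      rw [hb] at h
      exact ⟨acc, m, _, hacc, h⟩
    | false =>
      rw [hb] at h
      refine ih ?_ h
      intro s
      generalize Nat.sub (Nat.land st 1023) 1 = l0
      have e1 : Nat.add (Nat.mul 2 (vat vt (Nat.shiftRight l0 1)))
          (Nat.land l0 1) = scode vt l0 := by
        have a1 : Nat.shiftRight l0 1 = l0 / 2 := by
          show l0 >>> 1 = l0 / 2
          rw [Nat.shiftRight_eq_div_pow, pow_one]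
        have a2 : Nat.land l0 1 = l0 % 2 := Nat.and_one_is_mod _
        rw [a1, a2]
        rfl
      rw [e1]
      have hbit : ∀ l, (Nat.lor m (Nat.shiftLeft 1 l0)).testBit l = true ↔
          (m.testBit l = true ∨ l = l0) := by
        intro l
        rw [testBit_lor, shiftLeft_one, Nat.testBit_two_pow, Bool.or_eq_true, decide_eq_true_eq]
        exact or_congr Iff.rfl eq_comm
      constructor
      · intro hs
        rcases List.mem_cons.mp hs with rfl | hs
        · exact ⟨l0, (hbit l0).mpr (Or.inr rfl), rfl⟩
        · obtain ⟨l, hl, rfl⟩ := (hacc s).mp hs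
          exact ⟨l, (hbit l).mpr (Or.inl hl), rfl⟩
      · rintro ⟨l, hl, rfl⟩
        rcases (hbit l).mp hl with hl | rfl
        · exact List.mem_cons_of_mem _ ((hacc _).mpr ⟨l, hl, rfl⟩)
        · exact List.mem_cons_self

theorem decK_iff {vt fuel st : ℕ} {f : List ℕ → ℕ → ℕ → Bool} (h : decK vt fuel st 0 [] f = true) :
    ∃ L m st', (∀ s, s ∈ L ↔ ∃ l, m.testBit l = true ∧ s = scode vt l) ∧ f L m st' = true :=
  decK_aux vt fuel (by simp) h

theorem decK_spec {k : ℕ} (vt : ℕ) (R : Rz k) {L : List ℕ} {m : ℕ}
    (hL : ∀ s, s ∈ L ↔ ∃ l, m.testBit l = true ∧ s = scode vt l) :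
    ∀ s ∈ L, sl R s → Sat vt R m := by
  intro s hs hsl
  obtain ⟨l, hl, rfl⟩ := (hL s).mp hs
  exact ⟨l, hl, (sl_scode vt R l).mp hsl⟩

/-! ### Resolution steps -/

/-- Clause data bases: leaves hold 64 masks of `w` bits. -/
inductive DB where
  | leaf (w msk m : ℕ) : DB
  | node (l r : DB) : DB

/-- Entry `r` of the leaf found with the bits of `q`. -/
noncomputable def DB.look (t : DB) : ℕ → ℕ → ℕ :=
  DB.rec (motive := fun _ => ℕ → ℕ → ℕ)
    (fun w msk m _ r => Nat.land (Nat.shiftRight m (Nat.mul w r)) msk)
    (fun _ _ gl gr q r => Bool.rec (motive := fun _ => ℕ) (gr (Nat.shiftRight q 1) r)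
      (gl (Nat.shiftRight q 1) r) (Nat.beq (Nat.land q 1) 0)) t

/-- Entry `j`. -/
noncomputable def DB.get (t : DB) (j : ℕ) : ℕ := t.look (Nat.shiftRight j 6) (Nat.land j 63)

/-- Even bits. -/
def EVM : ℕ := 0x5555555555555555555555555555555555555555555555555555555555555555555555555555555555555555555555555555555555555555555555555555555555555555555555555555555555555555555555555555555555555555555555

/-- Odd bits. -/
def ODM : ℕ := 0xaaaaaaaaaaaaaaaaaaaaaaaaaaaaaaaaaaaaaaaaaaaaaaaaaaaaaaaaaaaaaaaaaaaaaaaaaaaaaaaaaaaaaaaaaaaaaaaaaaaaaaaaaaaaaaaaaaaaaaaaaaaaaaaaaaaaaaaaaaaaaaaaaaaaaaaaaaaaaaaaaaaaaaaaaaaaaaaaaaaaaaaaaaaaaa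

/-- For a power of two, the complementary literal. -/
noncomputable def negb (r : ℕ) : ℕ :=
  Bool.rec (motive := fun _ => ℕ) (Nat.shiftLeft r 1) (Nat.shiftRight (Nat.land r ODM) 1)
    (Nat.beq (Nat.land r EVM) 0)

/-- Unit propagation along the hints `h` (15 bits each), starting from the false literals `F`. -/
noncomputable def rup (t : DB) (i fuel : ℕ) : ℕ → ℕ → Bool :=
  Nat.rec (motive := fun _ => ℕ → ℕ → Bool)
    (fun _ _ => false)
    (fun _ ih F h => force (Nat.land h 32767) fun j =>
      Bool.rec (motive := fun _ => Bool) false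
        (force (t.get j) fun D => force (Nat.xor D (Nat.land D F)) fun r =>
          Bool.rec (motive := fun _ => Bool)
            (Bool.rec (motive := fun _ => Bool) false
              (force (Nat.lor F (negb r)) fun F' => force (Nat.shiftRight h 15) fun h' => ih F' h')
              (Nat.beq (Nat.land r (Nat.sub r 1)) 0))
            true (Nat.beq r 0))
        (Nat.blt j i)) fuel

theorem single_pow {z : ℕ} (h0 : z ≠ 0) (h : Nat.land z (Nat.sub z 1) = 0) :
    z = 2 ^ Nat.log2 z := by
  have h1 : 2 ^ Nat.log2 z ≤ z := Nat.log2_self_le h0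
  have h2 : z < 2 ^ (Nat.log2 z + 1) := Nat.lt_log2_self
  by_contra hne
  have h3 : 2 ^ Nat.log2 z ≤ z - 1 := by omega
  have ht : (z - 1).testBit (Nat.log2 z) = true := by
    rw [Nat.testBit_eq_decide_div_mod_eq, decide_eq_true_eq]
    have : (z - 1) / 2 ^ Nat.log2 z = 1 := by
      apply Nat.div_eq_of_lt_le
      · omega
      · rw [pow_succ] at h2; omega
    rw [this]
  have ht2 := testBit_log2 h0
  have : (Nat.land z (Nat.sub z 1)).testBit (Nat.log2 z) = true := by
    rw [testBit_land, ht2, Bool.true_and]; exact ht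
  rw [h, Nat.zero_testBit] at this
  exact absurd this (by decide)

theorem evm_aux : ∀ e < 760, Nat.testBit EVM e = true → e % 2 = 0 := by decide +kernel

theorem odm_aux : ∀ e < 760, Nat.testBit ODM e = true → e % 2 = 1 := by decide +kernel

theorem pow_step {m n : ℕ} (h : m >>> n = 0) : m < 2 ^ n := by
  rw [Nat.shiftRight_eq_div_pow] at h
  exact (Nat.div_eq_zero_iff_lt (by positivity)).mp h

theorem evm_lt : EVM < 2 ^ 760 := pow_step (by decide +kernel)

theorem odm_lt : ODM < 2 ^ 760 := pow_step (by decide +kernel)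

theorem evm_spec {e : ℕ} (h : Nat.testBit EVM e = true) : e % 2 = 0 := by
  by_cases he : e < 760
  · exact evm_aux e he h
  · rw [Nat.testBit_lt_two_pow (lt_of_lt_of_le evm_lt (Nat.pow_le_pow_right (by norm_num)
      (by omega)))] at h
    exact absurd h (by decide)

theorem odm_spec {e : ℕ} (h : Nat.testBit ODM e = true) : e % 2 = 1 := by
  by_cases he : e < 760
  · exact odm_aux e he h
  · rw [Nat.testBit_lt_two_pow (lt_of_lt_of_le odm_lt (Nat.pow_le_pow_right (by norm_num)
      (by omega)))] at h
    exact absurd h (by decide)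

theorem negb_spec {k : ℕ} (vt : ℕ) (R : Rz k) {r l : ℕ} (h0 : r ≠ 0)
    (h : Nat.land r (Nat.sub r 1) = 0) (hr : ∀ j, r.testBit j = true → lit vt R j)
    (hl : (negb r).testBit l = true) : ¬ lit vt R l := by
  have hp := single_pow h0 h
  set e := Nat.log2 r with he
  have hbe : r.testBit e = true := by rw [he]; exact testBit_log2 h0
  have hle : lit vt R e := hr e hbe
  have huniq : ∀ j, r.testBit j = true → j = e := by
    intro j hj
    rw [hp, Nat.testBit_two_pow, decide_eq_true_eq] at hj
    exact hj.symm
  unfold negb at hl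
  cases hb : Nat.beq (Nat.land r EVM) 0 with
  | false =>
    rw [hb] at hl
    have h1 := Nat.ne_of_beq_eq_false hb
    obtain ⟨j, hj⟩ := Nat.exists_testBit_of_ne_zero h1
    rw [testBit_land, Bool.and_eq_true] at hj
    have h2 : e % 2 = 0 := by
      rw [← huniq j hj.1]
      exact evm_spec hj.2
    have hl' : (Nat.shiftLeft r 1).testBit l = true := hl
    have h3 : Nat.shiftLeft r 1 = 2 ^ (e + 1) := by
      show r <<< 1 = _
      rw [Nat.shiftLeft_eq, pow_one, pow_succ, ← hp]
    rw [h3, Nat.testBit_two_pow, decide_eq_true_eq] at hl'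
    subst hl'
    unfold lit at hle ⊢
    rw [if_pos h2] at hle
    have a1 : (e + 1) % 2 ≠ 0 := by omega
    have a2 : (e + 1) / 2 = e / 2 := by omega
    rw [if_neg a1, a2]
    exact fun hc => hc hle
  | true =>
    rw [hb] at hl
    have hl' : (Nat.shiftRight (Nat.land r ODM) 1).testBit l = true := hl
    have h3 : (Nat.shiftRight (Nat.land r ODM) 1).testBit l = (Nat.land r ODM).testBit (l + 1) := by
      show ((Nat.land r ODM) >>> 1).testBit l = _
      rw [Nat.testBit_shiftRight, add_comm]
    rw [h3, testBit_land, Bool.and_eq_true] at hl'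
    have h4 := huniq _ hl'.1
    have h2 := odm_spec hl'.2
    rw [← h4] at hle
    unfold lit at hle ⊢
    have a0 : (l + 1) % 2 ≠ 0 := by omega
    rw [if_neg a0] at hle
    have a1 : l % 2 = 0 := by omega
    have a2 : (l + 1) / 2 = l / 2 := by omega
    rw [if_pos a1]
    rwa [a2] at hle

theorem rup_spec {k : ℕ} (vt : ℕ) (R : Rz k) (t : DB) (i fuel : ℕ) {F h : ℕ}
    (hdb : ∀ j < i, Sat vt R (t.get j)) (hF : ∀ l, F.testBit l = true → ¬ lit vt R l)
    (h : rup t i fuel F h = true) : False := by
  rename_i h0
  induction fuel generalizing F h0 with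
  | zero => exact absurd h (by simp [rup])
  | succ n ih =>
    have e : rup t i (n + 1) F h0 = force (Nat.land h0 32767) fun j =>
      Bool.rec (motive := fun _ => Bool) false
        (force (t.get j) fun D => force (Nat.xor D (Nat.land D F)) fun r =>
          Bool.rec (motive := fun _ => Bool)
            (Bool.rec (motive := fun _ => Bool) false
              (force (Nat.lor F (negb r)) fun F' =>
                force (Nat.shiftRight h0 15) fun h' => rup t i n F' h')
              (Nat.beq (Nat.land r (Nat.sub r 1)) 0))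
            true (Nat.beq r 0))
        (Nat.blt j i) := rfl
    rw [e] at h
    simp only [force_eq] at h
    set j := Nat.land h0 32767 with hj
    cases hji : Nat.blt j i with
    | false => rw [hji] at h; exact Bool.false_ne_true h
    | true =>
      rw [hji] at h
      have hji' : j < i := by
        have : Nat.ble (j + 1) i = true := hji
        exact Nat.le_of_ble_eq_true this
      obtain ⟨l, hl1, hl2⟩ := hdb j hji'
      set D := t.get j with hD
      set r := Nat.xor D (Nat.land D F) with hr
      have hrb : ∀ b, r.testBit b = (D.testBit b && !F.testBit b) := by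
        intro b
        rw [hr, testBit_xor', testBit_land]
        cases D.testBit b <;> cases F.testBit b <;> rfl
      have hrl : r.testBit l = true := by
        rw [hrb, hl1, Bool.true_and]
        cases hf : F.testBit l with
        | false => rfl
        | true => exact absurd hl2 (hF l hf)
      cases hr0 : Nat.beq r 0 with
      | true =>
        rw [Nat.eq_of_beq_eq_true hr0, Nat.zero_testBit] at hrl
        exact absurd hrl (by decide)
      | false =>
        rw [hr0] at h
        cases hs : Nat.beq (Nat.land r (Nat.sub r 1)) 0 with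
        | false => rw [hs] at h; exact Bool.false_ne_true h
        | true =>
          rw [hs] at h
          have hr0' := Nat.ne_of_beq_eq_false hr0
          have hs' := Nat.eq_of_beq_eq_true hs
          have hp := single_pow hr0' hs'
          have hrj : ∀ b, r.testBit b = true → lit vt R b := by
            intro b hb
            rw [hp, Nat.testBit_two_pow, decide_eq_true_eq] at hb hrl
            rw [← hb, hrl]
            exact hl2
          refine ih ?_ h
          intro b hb
          rw [testBit_lor, Bool.or_eq_true] at hb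
          rcases hb with hb | hb
          · exact hF b hb
          · exact negb_spec vt R hr0' hs' hrj hb

end Pool.Agent.T6.H80.MT
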