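import Mathlib
import Pool.Agent.T6.H80.MT.Check

set_option autoImplicit false

/-!
Kuratowski certificates: a subdivision of `K₅` or `K₃,₃` whose independent routes are disjoint
unless one of the statements of the clause holds.
-/

namespace Pool.Agent.T6.H80.MT

open Set

inductive Seg where
  | mk (c x y : ℕ) : Seg

inductive Ent where
  | mk (a b : ℕ) (L : List Seg) : Ent

/-- A name may be used as a turning point. -/
noncomputable def okName (L : List ℕ) (x : ℕ) : Bool :=
  Bool.rec (motive := fun _ => Bool) (memb (Nat.add (Nat.mul 2 (ec x)) 1) L) true (Nat.blt x 13)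

noncomputable def okSeg (k : ℕ) (L : List ℕ) : Seg → Bool
  | .mk c x y => and (Nat.blt c k) (and (Nat.blt x 19) (and (Nat.blt y 19)
      (and (onc c x) (and (onc c y) (and (okName L x) (okName L y))))))

/-- The disjointness of two sub-arcs follows from the falsity of the codes in `L`. -/
noncomputable def okPair (L : List ℕ) : Seg → Seg → Bool
  | .mk c x y, .mk d z w => Bool.rec (motive := fun _ => Bool)
      (force (com c d) fun v => and (neq v 31)
        (or (and (neq v x) (and (neq v y) (memb (Nat.mul 2 (bc c v x y)) L)))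
          (and (neq v z) (and (neq v w) (memb (Nat.mul 2 (bc d v z w)) L)))))
      (and (neq x z) (and (neq x w) (and (neq y z) (and (neq y w)
        (and (memb (Nat.mul 2 (bc c z x y)) L) (and (memb (Nat.mul 2 (bc c w x y)) L)
          (memb (Nat.mul 2 (bc c x z w)) L)))))))
      (Nat.beq c d)

noncomputable def all1 {α : Type} (p : α → Bool) (L : List α) : Bool :=
  List.rec (motive := fun _ => Bool) true (fun a _ ih => and (p a) ih) L

theorem all1_spec {α : Type} {p : α → Bool} {L : List α} (h : all1 p L = true) :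
    ∀ a ∈ L, p a = true := by
  induction L with
  | nil => intro a ha; simp at ha
  | cons b l ih =>
    have e : all1 p (b :: l) = and (p b) (all1 p l) := rfl
    rw [e, Bool.and_eq_true] at h
    intro a ha
    rcases List.mem_cons.mp ha with rfl | ha
    · exact h.1
    · exact ih h.2 a ha

/-- Independent routes are disjoint. -/
noncomputable def okEnt (L : List ℕ) : Ent → Ent → Bool
  | .mk a b S, .mk a' b' S' => or (or (Nat.beq a a') (Nat.beq a b')) (or (or (Nat.beq b a')
      (Nat.beq b b')) (all1 (fun s => all1 (fun s' => okPair L s s') S') S))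

noncomputable def pw {α : Type} (r : α → α → Bool) (L : List α) : Bool :=
  List.rec (motive := fun _ => Bool) true (fun a l ih => and (all1 (r a) l) ih) L

theorem pw_spec {α : Type} {r : α → α → Bool} {L : List α} (h : pw r L = true) :
    L.Pairwise (fun a b => r a b = true) := by
  induction L with
  | nil => exact List.Pairwise.nil
  | cons b l ih =>
    have e : pw r (b :: l) = and (all1 (r b) l) (pw r l) := rfl
    rw [e, Bool.and_eq_true] at h
    exact List.Pairwise.cons (all1_spec h.1) (ih h.2)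

/-- Read a route. -/
noncomputable def route (fuel : ℕ) : ℕ → ℕ → ℕ → List Seg → (List Seg → ℕ → Bool) → Bool :=
  Nat.rec (motive := fun _ => ℕ → ℕ → ℕ → List Seg → (List Seg → ℕ → Bool) → Bool)
    (fun _ _ _ _ _ => false)
    (fun _ ih cur tgt st acc f =>
      force (Nat.land (Nat.shiftRight st 5) 31) fun c => force (Nat.land st 31) fun y =>
        force (Nat.shiftRight st 10) fun st' =>
          Bool.rec (motive := fun _ => Bool) (ih y tgt st' (Seg.mk c cur y :: acc) f)
            (f (Seg.mk c cur y :: acc) st') (Nat.beq y tgt)) fuel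

/-- `RChain a b l`: the reversed list `l` is a route from `a` to `b`. -/
inductive RChain : ℕ → ℕ → List Seg → Prop where
  | nil (a : ℕ) : RChain a a []
  | cons {a x : ℕ} {l : List Seg} (c y : ℕ) (h : RChain a x l) : RChain a y (Seg.mk c x y :: l)

theorem route_spec (fuel : ℕ) {a cur tgt st : ℕ} {acc : List Seg} {f : List Seg → ℕ → Bool}
    (hc : RChain a cur acc) (h : route fuel cur tgt st acc f = true) :
    ∃ L st', RChain a tgt L ∧ L ≠ [] ∧ f L st' = true := by
  induction fuel generalizing cur st acc with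
  | zero => exact absurd h (by simp [route])
  | succ n ih =>
    have e : route (n + 1) cur tgt st acc f =
      force (Nat.land (Nat.shiftRight st 5) 31) fun c => force (Nat.land st 31) fun y =>
        force (Nat.shiftRight st 10) fun st' =>
          Bool.rec (motive := fun _ => Bool) (route n y tgt st' (Seg.mk c cur y :: acc) f)
            (f (Seg.mk c cur y :: acc) st') (Nat.beq y tgt) := rfl
    rw [e] at h
    simp only [force_eq] at h
    cases hb : Nat.beq (Nat.land st 31) tgt with
    | true =>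
      rw [hb] at h
      have hy := Nat.eq_of_beq_eq_true hb
      refine ⟨_, _, ?_, ?_, h⟩
      · rw [← hy]
        exact RChain.cons _ _ hc
      · simp
    | false =>
      rw [hb] at h
      exact ih (RChain.cons _ _ hc) h

/-- The branch vertex number `a`. -/
noncomputable def bvx (BV a : ℕ) : ℕ := Nat.land (Nat.shiftRight BV (Nat.mul 5 a)) 31

/-- Read all routes. -/
noncomputable def routes (BV : ℕ) (E : List (ℕ × ℕ)) : ℕ → List Ent → (List Ent → Bool) → Bool :=
  List.rec (motive := fun _ => ℕ → List Ent → (List Ent → Bool) → Bool)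
    (fun _ acc f => f acc)
    (fun e _ ih st acc f => force (bvx BV e.1) fun u => force (bvx BV e.2) fun v =>
      route 16 u v st [] fun L st' => ih st' (Ent.mk e.1 e.2 L :: acc) f) E

/-- A list of routes joins the right branch vertices. -/
def EntOK (BV : ℕ) : Ent → Prop
  | .mk a b L => RChain (bvx BV a) (bvx BV b) L ∧ L ≠ []

def Ent.fst : Ent → ℕ
  | .mk a _ _ => a
def Ent.snd : Ent → ℕ
  | .mk _ b _ => b
def Ent.segs : Ent → List Seg
  | .mk _ _ L => L

theorem routes_spec (BV : ℕ) (E : List (ℕ × ℕ)) {st : ℕ} {acc : List Ent} {f : List Ent → Bool}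
    (hacc : ∀ e ∈ acc, EntOK BV e) (h : routes BV E st acc f = true) :
    ∃ A : List Ent, (∀ e ∈ A, EntOK BV e) ∧ (∀ e ∈ acc, e ∈ A) ∧
      (∀ e ∈ E, ∃ s ∈ A, s.fst = e.1 ∧ s.snd = e.2) ∧ f A = true := by
  induction E generalizing st acc with
  | nil => exact ⟨acc, hacc, fun e he => he, fun e he => absurd he (by simp), h⟩
  | cons e E ih =>
    have e0 : routes BV (e :: E) st acc f =
      force (bvx BV e.1) fun u => force (bvx BV e.2) fun v =>
        route 16 u v st [] fun L st' => routes BV E st' (Ent.mk e.1 e.2 L :: acc) f := rfl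
    rw [e0] at h
    simp only [force_eq] at h
    obtain ⟨L, st', hL, hne, hf⟩ := route_spec 16 (RChain.nil _) h
    obtain ⟨A, h1, h2, h3, h4⟩ := ih (acc := Ent.mk e.1 e.2 L :: acc) (by
      intro e' he'
      rcases List.mem_cons.mp he' with rfl | he'
      · exact ⟨hL, hne⟩
      · exact hacc e' he') hf
    refine ⟨A, h1, fun e' he' => h2 e' (List.mem_cons_of_mem _ he'), ?_, h4⟩
    intro e' he'
    rcases List.mem_cons.mp he' with rfl | he'
    · exact ⟨_, h2 _ List.mem_cons_self, rfl, rfl⟩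
    · exact h3 e' he'

def E5 : List (ℕ × ℕ) :=
  [(0, 1), (0, 2), (0, 3), (0, 4), (1, 2), (1, 3), (1, 4), (2, 3), (2, 4), (3, 4)]

def E33 : List (ℕ × ℕ) :=
  [(0, 3), (0, 4), (0, 5), (1, 3), (1, 4), (1, 5), (2, 3), (2, 4), (2, 5)]

/-- The final test of a certificate. -/
noncomputable def fin1 (k : ℕ) (L : List ℕ) (A : List Ent) : Bool :=
  and (all1 (fun e => all1 (okSeg k L) (Ent.segs e)) A) (pw (okEnt L) A)

/-- The check of a certificate for the mask `m`. -/
noncomputable def chkK (vt k m : ℕ) (E : List (ℕ × ℕ)) (cert : ℕ) : Bool :=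
  decK vt 64 cert 0 [] fun L M st0 => and (Nat.beq M m)
    (force (Nat.land st0 1073741823) fun BV => force (Nat.shiftRight st0 30) fun st =>
      routes BV E st [] (fin1 k L))

/-! ### Soundness -/

section Sound

variable {k : ℕ} (R : Rz k) (L : List ℕ)

theorem okName_spec (hL : ∀ s ∈ L, ¬ sl R s) {x : ℕ} (h : okName L x = true) : R.ex x := by
  unfold okName at h
  cases hb : Nat.blt x 13 with
  | true =>
    have : Nat.ble (x + 1) 13 = true := hb
    exact R.exd x (Nat.le_of_ble_eq_true this)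
  | false =>
    rw [hb] at h
    have h1 := hL _ (memb_spec h)
    have e0 : Nat.add (Nat.mul 2 (ec x)) 1 = 2 * ec x + 1 := rfl
    unfold sl at h1
    rw [e0, if_neg (by omega), not_not] at h1
    have e1 : (2 * ec x + 1) / 2 = ec x := by omega
    rw [e1, ev_ec] at h1
    exact h1

/-- The facts provided by `okSeg`. -/
def SegGood : Seg → Prop
  | .mk c x y => c < k ∧ onc c x = true ∧ onc c y = true ∧ R.ex x ∧ R.ex y ∧ x < 19 ∧ y < 19

def Seg.set : Seg → Set ℂ
  | .mk c x y => arc R c x y

theorem lt_of_blt {a b : ℕ} (h : Nat.blt a b = true) : a < b := by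
  have : Nat.ble (a + 1) b = true := h
  exact Nat.le_of_ble_eq_true this

theorem okSeg_spec (hL : ∀ s ∈ L, ¬ sl R s) {s : Seg} (h : okSeg k L s = true) :
    SegGood R s := by
  obtain ⟨c, x, y⟩ := s
  simp only [okSeg, Bool.and_eq_true] at h
  obtain ⟨h1, hx, hy, h2, h3, h4, h5⟩ := h
  exact ⟨lt_of_blt h1, h2, h3, okName_spec R L hL h4, okName_spec R L hL h5,
    lt_of_blt hx, lt_of_blt hy⟩

theorem memb_bc (hL : ∀ s ∈ L, ¬ sl R s) {c v x y : ℕ} (hc : c < 32) (hv : v < 32) (hx : x < 32)
    (hy : y < 32) (h : memb (Nat.mul 2 (bc c v x y)) L = true) :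
    ¬ (R.ex x ∧ R.ex v ∧ R.ex y ∧ Btw (R.t c x) (R.t c v) (R.t c y)) := by
  have h1 := hL _ (memb_spec h)
  have e0 : Nat.mul 2 (bc c v x y) = 2 * bc c v x y := rfl
  unfold sl at h1
  rw [e0, if_pos (by omega)] at h1
  have e1 : 2 * bc c v x y / 2 = bc c v x y := by omega
  rw [e1, ev_bc R hc hv hx hy] at h1
  exact h1

theorem okPair_spec (hk : k ≤ 17) (hL : ∀ s ∈ L, ¬ sl R s) {s s' : Seg}
    (hs : SegGood R s) (hs' : SegGood R s') (h : okPair L s s' = true) :
    Disjoint (Seg.set R s) (Seg.set R s') := by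
  obtain ⟨c, x, y⟩ := s
  obtain ⟨d, z, w⟩ := s'
  obtain ⟨hc, ox, oy, ex, ey, hx, hy⟩ := hs
  obtain ⟨hd, oz, ow, ez, ew, hz, hw⟩ := hs'
  cases hb : Nat.beq c d with
  | true =>
    simp only [okPair, hb] at h
    have hcd := Nat.eq_of_beq_eq_true hb
    subst hcd
    simp only [Bool.and_eq_true] at h
    obtain ⟨h1, h2, h3, h4, h5, h6, h7⟩ := h
    have g5 := memb_bc R L hL (by omega) (by omega) (by omega) (by omega) h5
    have g6 := memb_bc R L hL (by omega) (by omega) (by omega) (by omega) h6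
    have g7 := memb_bc R L hL (by omega) (by omega) (by omega) (by omega) h7
    exact disj_same R hc hx hy hz hw ox oy oz ow ex ey ez ew (neq_spec h1) (neq_spec h2)
      (neq_spec h3) (neq_spec h4) (fun hh => g5 ⟨ex, ez, ey, hh⟩) (fun hh => g6 ⟨ex, ew, ey, hh⟩)
      (fun hh => g7 ⟨ez, ex, ew, hh⟩)
  | false =>
    simp only [okPair, hb] at h
    have hcd := Nat.ne_of_beq_eq_false hb
    simp only [force_eq, Bool.and_eq_true, Bool.or_eq_true] at h
    obtain ⟨hv, h⟩ := h
    have hv' := neq_spec hv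
    have hvl := (com_spec c (by omega) d (by omega) hcd hv').1
    rcases h with ⟨h1, h2, h3⟩ | ⟨h1, h2, h3⟩
    · have g := memb_bc R L hL (by omega) (by omega) (by omega) (by omega) h3
      exact disj_diff R hk hc hd hcd hx hy ox oy ex ey hv' (neq_spec h1) (neq_spec h2) g
        hz hw oz ow ez ew
    · have hdc : com d c = com c d := by
        have : ∀ c < 17, ∀ d < 17, com d c = com c d := by decide
        exact this c (by omega) d (by omega)
      have g := memb_bc R L hL (by omega) (by omega) (by omega) (by omega) h3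
      rw [← hdc] at hv' h1 h2 g
      exact (disj_diff R hk hd hc (Ne.symm hcd) hz hw oz ow ez ew hv' (neq_spec h1) (neq_spec h2) g
        hx hy ox oy ex ey).symm

/-- The point set of a route. -/
def segU (S : List Seg) : Set ℂ := {p | ∃ s ∈ S, p ∈ Seg.set R s}

theorem chain_joined {a b : ℕ} {S : List Seg} (hc : RChain a b S)
    (hg : ∀ s ∈ S, SegGood R s) (hne : S ≠ []) : JoinedIn (segU R S) (R.P a) (R.P b) := by
  induction hc with
  | nil => exact absurd rfl hne
  | @cons x l c y h ih =>
    obtain ⟨hc', ox, oy, ex, ey, hx, hy⟩ := hg _ List.mem_cons_self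
    have h1 : JoinedIn (segU R (Seg.mk c x y :: l)) (R.P x) (R.P y) :=
      (arc_joined R hc' hx hy ox oy ex ey).mono
        (fun p hp => ⟨_, List.mem_cons_self, hp⟩)
    by_cases hl : l = []
    · subst hl
      cases h
      exact h1
    · have h2 := ih (fun s hs => hg s (List.mem_cons_of_mem _ hs)) hl
      refine JoinedIn.trans (h2.mono ?_) h1
      rintro p ⟨s, hs, hp⟩
      exact ⟨s, List.mem_cons_of_mem _ hs, hp⟩

theorem ent_disj (hk : k ≤ 17) (hL : ∀ s ∈ L, ¬ sl R s) {e e' : Ent}
    (hg : ∀ s ∈ e.segs, SegGood R s) (hg' : ∀ s ∈ e'.segs, SegGood R s)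
    (h : okEnt L e e' = true) (h1 : e.fst ≠ e'.fst) (h2 : e.fst ≠ e'.snd) (h3 : e.snd ≠ e'.fst)
    (h4 : e.snd ≠ e'.snd) : Disjoint (segU R e.segs) (segU R e'.segs) := by
  obtain ⟨a, b, S⟩ := e
  obtain ⟨a', b', S'⟩ := e'
  simp only [okEnt, Bool.or_eq_true] at h
  rcases h with (h | h) | (h | h) | h
  · exact absurd (Nat.eq_of_beq_eq_true h) h1
  · exact absurd (Nat.eq_of_beq_eq_true h) h2
  · exact absurd (Nat.eq_of_beq_eq_true h) h3
  · exact absurd (Nat.eq_of_beq_eq_true h) h4
  · rw [Set.disjoint_left]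
    rintro p ⟨s, hs, hp⟩ ⟨s', hs', hp'⟩
    have := okPair_spec R L hk hL (hg s hs) (hg' s' hs') (all1_spec (all1_spec h s hs) s' hs')
    exact (Set.disjoint_left.mp this) hp hp'

/-- Everything extracted from a successful check. -/
theorem fin1_spec (hk : k ≤ 17) (hL : ∀ s ∈ L, ¬ sl R s) {BV : ℕ} {A : List Ent}
    (hA : ∀ e ∈ A, EntOK BV e) (h : fin1 k L A = true) :
    (∀ e ∈ A, JoinedIn (segU R e.segs) (R.P (bvx BV e.fst)) (R.P (bvx BV e.snd))) ∧
    (∀ e ∈ A, ∀ e' ∈ A, e.fst ≠ e'.fst → e.fst ≠ e'.snd → e.snd ≠ e'.fst → e.snd ≠ e'.snd →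
      Disjoint (segU R e.segs) (segU R e'.segs)) := by
  unfold fin1 at h
  rw [Bool.and_eq_true] at h
  obtain ⟨h1, h2⟩ := h
  have hg : ∀ e ∈ A, ∀ s ∈ e.segs, SegGood R s := fun e he s hs =>
    okSeg_spec R L hL (all1_spec (all1_spec h1 e he) s hs)
  refine ⟨fun e he => ?_, ?_⟩
  · obtain ⟨a, b, S⟩ := e
    have := hA _ he
    exact chain_joined R this.1 (hg _ he) this.2
  · have hp : A.Pairwise (fun e e' => (e.fst ≠ e'.fst → e.fst ≠ e'.snd → e.snd ≠ e'.fst →
        e.snd ≠ e'.snd → Disjoint (segU R e.segs) (segU R e'.segs))) := by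
      refine (pw_spec h2).imp_of_mem ?_
      intro e e' he he' hh n1 n2 n3 n4
      exact ent_disj R L hk hL (hg e he) (hg e' he') hh n1 n2 n3 n4
    intro e he e' he' n1 n2 n3 n4
    have hne : e ≠ e' := by
      rintro rfl
      exact n1 rfl
    have : Std.Symm (fun e e' : Ent => (e.fst ≠ e'.fst → e.fst ≠ e'.snd → e.snd ≠ e'.fst →
        e.snd ≠ e'.snd → Disjoint (segU R e.segs) (segU R e'.segs))) := by
      constructor
      intro x y hxy m1 m2 m3 m4
      exact (hxy m1.symm m3.symm m2.symm m4.symm).symm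
    exact hp.forall he he' hne n1 n2 n3 n4

theorem chk5_sound (hk : k ≤ 17) {vt m cert : ℕ} (h : chkK vt k m E5 cert = true) :
    Sat vt R m := by
  by_contra hns
  obtain ⟨L, m', st0, hL, hf⟩ := decK_iff h
  rw [Bool.and_eq_true] at hf
  obtain ⟨hm, hf⟩ := hf
  have hm' : m' = m := Nat.eq_of_beq_eq_true hm
  subst hm'
  have hL' : ∀ s ∈ L, ¬ sl R s := fun s hs hsl => hns (decK_spec vt R hL s hs hsl)
  simp only [force_eq] at hf
  obtain ⟨A, hA, -, hE, hfin⟩ := routes_spec _ E5 (by simp) hf
  obtain ⟨hj, hd⟩ := fin1_spec R L hk hL' hA hfin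
  set BV := Nat.land st0 1073741823
  refine Pool.Agent.Helper479.Bond.VK.k5_joined (fun a => R.P (bvx BV a.1))
    (fun a b => {p | ∃ e ∈ A, e.fst = a.1 ∧ e.snd = b.1 ∧ p ∈ segU R e.segs}) ?_ ?_
  · intro a b hab
    have hmem : (a.1, b.1) ∈ E5 := by
      revert a b
      decide
    obtain ⟨e, he, e1, e2⟩ := hE _ hmem
    have := hj e he
    rw [e1, e2] at this
    exact this.mono (fun p hp => ⟨e, he, e1, e2, hp⟩)
  · intro a b c d _ _ h1 h2 h3 h4
    rw [Set.disjoint_left]
    rintro p ⟨e, he, e1, e2, hp⟩ ⟨e', he', e1', e2', hp'⟩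
    have := hd e he e' he' (by rw [e1, e1']; exact fun hh => h1 (Fin.ext hh))
      (by rw [e1, e2']; exact fun hh => h2 (Fin.ext hh))
      (by rw [e2, e1']; exact fun hh => h3 (Fin.ext hh))
      (by rw [e2, e2']; exact fun hh => h4 (Fin.ext hh))
    exact (Set.disjoint_left.mp this) hp hp'

theorem chk33_sound (hk : k ≤ 17) {vt m cert : ℕ} (h : chkK vt k m E33 cert = true) :
    Sat vt R m := by
  by_contra hns
  obtain ⟨L, m', st0, hL, hf⟩ := decK_iff h
  rw [Bool.and_eq_true] at hf
  obtain ⟨hm, hf⟩ := hf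
  have hm' : m' = m := Nat.eq_of_beq_eq_true hm
  subst hm'
  have hL' : ∀ s ∈ L, ¬ sl R s := fun s hs hsl => hns (decK_spec vt R hL s hs hsl)
  simp only [force_eq] at hf
  obtain ⟨A, hA, -, hE, hfin⟩ := routes_spec _ E33 (by simp) hf
  obtain ⟨hj, hd⟩ := fin1_spec R L hk hL' hA hfin
  set BV := Nat.land st0 1073741823
  refine Pool.Agent.Helper479.Bond.VK.k33_joined (fun a => R.P (bvx BV a.1))
    (fun a b => {p | ∃ e ∈ A, e.fst = a.1 ∧ e.snd = b.1 ∧ p ∈ segU R e.segs}) ?_ ?_
  · intro a b ha hb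
    have hmem : (a.1, b.1) ∈ E33 := by
      revert a b
      decide
    obtain ⟨e, he, e1, e2⟩ := hE _ hmem
    have := hj e he
    rw [e1, e2] at this
    exact this.mono (fun p hp => ⟨e, he, e1, e2, hp⟩)
  · intro a b c d ha hb hc hd' h1 h2
    rw [Set.disjoint_left]
    rintro p ⟨e, he, e1, e2, hp⟩ ⟨e', he', e1', e2', hp'⟩
    have := hd e he e' he' (by rw [e1, e1']; exact fun hh => h1 (Fin.ext hh))
      (by rw [e1, e2']; omega)
      (by rw [e2, e1']; omega)
      (by rw [e2, e2']; exact fun hh => h2 (Fin.ext hh))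
    exact (Set.disjoint_left.mp this) hp hp'

end Sound

end Pool.Agent.T6.H80.MT
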