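import Mathlib
import Pool.Agent.T6.H80.MT.Kur

set_option autoImplicit false

/-!
The axioms of betweenness as clauses.
-/

namespace Pool.Agent.T6.H80.MT

open Set

/-- Positive signed code. -/
def pc (q : ℕ) : ℕ := Nat.mul 2 q

/-- Negative signed code. -/
def nc (q : ℕ) : ℕ := Nat.add (Nat.mul 2 q) 1

noncomputable def ax0 (k : ℕ) (L : List ℕ) (c x y z : ℕ) : Bool :=
  and (okSeg k L (Seg.mk c x y)) (and (okSeg k L (Seg.mk c y z))
    (and (neq x y) (and (neq y z) (and (neq x z)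
      (and (memb (pc (bc c y x z)) L) (and (memb (pc (bc c x y z)) L)
        (memb (pc (bc c z x y)) L)))))))

noncomputable def ax1 (L : List ℕ) (c x y z : ℕ) : Bool :=
  and (memb (nc (bc c y x z)) L) (memb (nc (bc c x y z)) L)

noncomputable def ax2 (L : List ℕ) (c x y z w : ℕ) : Bool :=
  and (memb (nc (bc c y x z)) L) (and (memb (nc (bc c z y w)) L) (memb (pc (bc c y x w)) L))

noncomputable def ax3 (L : List ℕ) (c x y z w : ℕ) : Bool :=
  and (memb (nc (bc c y x z)) L) (and (memb (nc (bc c z x w)) L) (memb (pc (bc c y x w)) L))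

noncomputable def ax4 (L : List ℕ) (c x y z w : ℕ) : Bool :=
  and (memb (nc (bc c y x z)) L) (and (memb (nc (bc c z x w)) L) (memb (pc (bc c z y w)) L))

noncomputable def ax5 (L : List ℕ) (c x y z w : ℕ) : Bool :=
  and (memb (nc (bc c y x z)) L) (and (or (Nat.beq w x) (or (Nat.beq w y) (Nat.beq w z)))
    (memb (pc (ec w)) L))

noncomputable def chkA (vt k m cert : ℕ) : Bool :=
  decK vt 64 cert 0 [] fun L M st => and (Nat.beq M m)
    (force (Nat.land (Nat.shiftRight st 3) 31) fun c =>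
    force (Nat.land (Nat.shiftRight st 8) 31) fun x =>
    force (Nat.land (Nat.shiftRight st 13) 31) fun y =>
    force (Nat.land (Nat.shiftRight st 18) 31) fun z =>
    force (Nat.land (Nat.shiftRight st 23) 31) fun w =>
    force (Nat.land st 7) fun ty =>
    or (and (Nat.beq ty 0) (ax0 k L c x y z)) (or (and (Nat.beq ty 1) (ax1 L c x y z))
      (or (and (Nat.beq ty 2) (ax2 L c x y z w)) (or (and (Nat.beq ty 3) (ax3 L c x y z w))
        (or (and (Nat.beq ty 4) (ax4 L c x y z w)) (ax5 L c x y z w))))))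

section

variable {k : ℕ} (R : Rz k) (L : List ℕ)

theorem pos_false (hL : ∀ s ∈ L, ¬ sl R s) {q : ℕ} (h : memb (pc q) L = true) : ¬ ev R q := by
  have h1 := hL _ (memb_spec h)
  have e0 : pc q = 2 * q := rfl
  unfold sl at h1
  rw [e0, if_pos (by omega)] at h1
  have e1 : 2 * q / 2 = q := by omega
  rwa [e1] at h1

theorem neg_true (hL : ∀ s ∈ L, ¬ sl R s) {q : ℕ} (h : memb (nc q) L = true) : ev R q := by
  have h1 := hL _ (memb_spec h)
  have e0 : nc q = 2 * q + 1 := rfl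
  unfold sl at h1
  rw [e0, if_neg (by omega), not_not] at h1
  have e1 : (2 * q + 1) / 2 = q := by omega
  rwa [e1] at h1

theorem btw_total {a b c : ℝ} (h1 : a ≠ b) (h2 : b ≠ c) (h3 : a ≠ c) :
    Btw a b c ∨ Btw b a c ∨ Btw a c b := by
  rcases lt_or_gt_of_ne h1 with a1 | a1
  · rcases lt_or_gt_of_ne h2 with a2 | a2
    · exact Or.inl (Or.inl ⟨a1, a2⟩)
    · rcases lt_or_gt_of_ne h3 with a3 | a3
      · exact Or.inr (Or.inr (Or.inl ⟨a3, a2⟩))
      · exact Or.inr (Or.inl (Or.inr ⟨a3, a1⟩))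
  · rcases lt_or_gt_of_ne h2 with a2 | a2
    · rcases lt_or_gt_of_ne h3 with a3 | a3
      · exact Or.inr (Or.inl (Or.inl ⟨a1, a3⟩))
      · exact Or.inr (Or.inr (Or.inr ⟨a2, a3⟩))
    · exact Or.inl (Or.inr ⟨a2, a1⟩)

theorem land31 (a : ℕ) : Nat.land a 31 < 32 := by
  have : Nat.land a 31 ≤ 31 := Nat.and_le_right
  omega

theorem chkA_sound {vt m cert : ℕ} (h : chkA vt k m cert = true) : Sat vt R m := by
  by_contra hns
  obtain ⟨L, m', st, hL0, hf⟩ := decK_iff h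
  rw [Bool.and_eq_true] at hf
  obtain ⟨hm, hf⟩ := hf
  have hm' : m' = m := Nat.eq_of_beq_eq_true hm
  subst hm'
  have hL : ∀ s ∈ L, ¬ sl R s := fun s hs hsl => hns (decK_spec vt R hL0 s hs hsl)
  simp only [force_eq] at hf
  have hc := land31 (Nat.shiftRight st 3)
  have hx := land31 (Nat.shiftRight st 8)
  have hy := land31 (Nat.shiftRight st 13)
  have hz := land31 (Nat.shiftRight st 18)
  have hw := land31 (Nat.shiftRight st 23)
  generalize Nat.land (Nat.shiftRight st 3) 31 = c at *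
  generalize Nat.land (Nat.shiftRight st 8) 31 = x at *
  generalize Nat.land (Nat.shiftRight st 13) 31 = y at *
  generalize Nat.land (Nat.shiftRight st 18) 31 = z at *
  generalize Nat.land (Nat.shiftRight st 23) 31 = w at *
  simp only [Bool.or_eq_true, Bool.and_eq_true] at hf
  rcases hf with ⟨-, h⟩ | ⟨-, h⟩ | ⟨-, h⟩ | ⟨-, h⟩ | ⟨-, h⟩ | h
  · simp only [ax0, Bool.and_eq_true] at h
    obtain ⟨h1, h2, h3, h4, h5, h6, h7, h8⟩ := h
    obtain ⟨ck, ox, oy, ex, ey, hx9, hy9⟩ := okSeg_spec R L hL h1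
    obtain ⟨-, -, oz, -, ez, -, hz9⟩ := okSeg_spec R L hL h2
    have g6 := pos_false R L hL h6
    have g7 := pos_false R L hL h7
    have g8 := pos_false R L hL h8
    rw [ev_bc R hc hy hx hz] at g6
    rw [ev_bc R hc hx hy hz] at g7
    rw [ev_bc R hc hz hx hy] at g8
    have n1 := tne R ck hx9 hy9 ox oy ex ey (neq_spec h3)
    have n2 := tne R ck hy9 hz9 oy oz ey ez (neq_spec h4)
    have n3 := tne R ck hx9 hz9 ox oz ex ez (neq_spec h5)
    rcases btw_total n1 n2 n3 with hh | hh | hh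
    · exact g6 ⟨ex, ey, ez, hh⟩
    · exact g7 ⟨ey, ex, ez, hh⟩
    · exact g8 ⟨ex, ez, ey, hh⟩
  · simp only [ax1, Bool.and_eq_true] at h
    obtain ⟨h1, h2⟩ := h
    have g1 := neg_true R L hL h1
    have g2 := neg_true R L hL h2
    rw [ev_bc R hc hy hx hz] at g1
    rw [ev_bc R hc hx hy hz] at g2
    obtain ⟨-, -, -, g1⟩ := g1
    obtain ⟨-, -, -, g2⟩ := g2
    rcases g1 with ⟨a, b⟩ | ⟨a, b⟩ <;> rcases g2 with ⟨c, d⟩ | ⟨c, d⟩ <;> linarith
  · simp only [ax2, Bool.and_eq_true] at h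
    obtain ⟨h1, h2, h3⟩ := h
    have g1 := neg_true R L hL h1
    have g2 := neg_true R L hL h2
    have g3 := pos_false R L hL h3
    rw [ev_bc R hc hy hx hz] at g1
    rw [ev_bc R hc hz hy hw] at g2
    rw [ev_bc R hc hy hx hw] at g3
    obtain ⟨e1, e2, e3, g1⟩ := g1
    obtain ⟨e4, e5, e6, g2⟩ := g2
    apply g3
    refine ⟨e1, e2, e6, ?_⟩
    rcases g1 with ⟨a, b⟩ | ⟨a, b⟩ <;> rcases g2 with ⟨c, d⟩ | ⟨c, d⟩
    · exact Or.inl ⟨a, by linarith⟩
    · linarith
    · linarith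
    · exact Or.inr ⟨by linarith, b⟩
  · simp only [ax3, Bool.and_eq_true] at h
    obtain ⟨h1, h2, h3⟩ := h
    have g1 := neg_true R L hL h1
    have g2 := neg_true R L hL h2
    have g3 := pos_false R L hL h3
    rw [ev_bc R hc hy hx hz] at g1
    rw [ev_bc R hc hz hx hw] at g2
    rw [ev_bc R hc hy hx hw] at g3
    obtain ⟨e1, e2, e3, g1⟩ := g1
    obtain ⟨e4, e5, e6, g2⟩ := g2
    apply g3
    refine ⟨e1, e2, e6, ?_⟩
    rcases g1 with ⟨a, b⟩ | ⟨a, b⟩ <;> rcases g2 with ⟨c, d⟩ | ⟨c, d⟩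
    · exact Or.inl ⟨a, by linarith⟩
    · linarith
    · linarith
    · exact Or.inr ⟨by linarith, b⟩
  · simp only [ax4, Bool.and_eq_true] at h
    obtain ⟨h1, h2, h3⟩ := h
    have g1 := neg_true R L hL h1
    have g2 := neg_true R L hL h2
    have g3 := pos_false R L hL h3
    rw [ev_bc R hc hy hx hz] at g1
    rw [ev_bc R hc hz hx hw] at g2
    rw [ev_bc R hc hz hy hw] at g3
    obtain ⟨e1, e2, e3, g1⟩ := g1
    obtain ⟨e4, e5, e6, g2⟩ := g2
    apply g3
    refine ⟨e2, e3, e6, ?_⟩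
    rcases g1 with ⟨a, b⟩ | ⟨a, b⟩ <;> rcases g2 with ⟨c, d⟩ | ⟨c, d⟩
    · exact Or.inl ⟨b, d⟩
    · linarith
    · linarith
    · exact Or.inr ⟨c, a⟩
  · simp only [ax5, Bool.and_eq_true, Bool.or_eq_true] at h
    obtain ⟨h1, h2, h3⟩ := h
    have g1 := neg_true R L hL h1
    have g3 := pos_false R L hL h3
    rw [ev_bc R hc hy hx hz] at g1
    rw [ev_ec] at g3
    obtain ⟨e1, e2, e3, -⟩ := g1
    rcases h2 with h2 | h2 | h2
    · rw [Nat.eq_of_beq_eq_true h2] at g3; exact g3 e1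
    · rw [Nat.eq_of_beq_eq_true h2] at g3; exact g3 e2
    · rw [Nat.eq_of_beq_eq_true h2] at g3; exact g3 e3

end

end Pool.Agent.T6.H80.MT
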