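import Mathlib
import Pool.Agent.T6.H80.MT.Ax

set_option autoImplicit false

/-!
Restriction to the first eleven curves, and relabelling by the 72 automorphisms.
-/

namespace Pool.Agent.T6.H80.MT

open Set

def PIT : ℕ := 18675707043000746362354601531923983631902969437605664779893946307443878723942422691306390571738619729391869560493160568184749488622697480519619765156285563471000314348810492497947107570144648243968862308494712975365304484279938006496176588931063859862387431906339232543807752141839044439680795531707659551338929071230662038776221306493327633324636151518961565544260320889755451447773585265984137889031507708500816168296995741569862449685260880570893901186906961099591185972566341832993509663011239856624532654682489874821511886007637412027132466801835943989529739041584387162789377695959259952305933106385917858102453241009542599780440556060350573215304126418389129494659532711242993676062703740889947616853604578028978189037859873913516429966669625041306005929446957962780541975144863203022778269913058091778417517250571901524312341770258644443815174219242283500482424359954067285096734637437222251747438037055693057101900648099155320533899845821139919608420692357107733937894767112316195265752293741840101924993526975672229193700601181516487655835746706840627631204186946164000631235274924254309682993802444365829581906789034584574636262987982593675326120712403556854174010129858147389710184075713678768209198896523540575584106200149401206498046524145566964326859023515548853939848248214897595548455054805367816166497942575765298812913600454805616766393149163816890336476188285528660955687341743413835958304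

def TAUT : ℕ := 1990464424804455269042876929079230849880953847823170061781113031349198799980787570354261384997403429877777860560953610854760364149094464827657185193217929192485132156838592416571857227634159083142115156569730662383136669216581486745474776752060391273462922480758389964954506689884493828115975100151514710873309706826755527301989672706680942830873283026403491516383067279646393314608378667405120842157385400288323503584468757214530667675737066029748541152065387365503068845567509324513237899199041875821235521995282162751936396793487553215061000747588580906713454283946023912778446908674624296866748453707771792185969598424474125158583412152158398833669839621336914513690688957024967172895873762706969675533886087999096201681331753744671883316744021741425072048765998483580021203391459702126675818169794225309468429017208326901446880928716472759794878204469472993813897093689861246599575263012295834774150224807137575161077376196255050177526508518055470454765260191079386275557021844682564672914297527621607269821043259852703569712212401133327203306629195946358760234061633094628413561438732612776860158637827985827408052399939762802526942692750252820509850645098652184158050544917526148646944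

/-- The action of the automorphism `g` on the points. -/
def pim (g x : ℕ) : ℕ := Nat.land (Nat.shiftRight PIT (Nat.add (Nat.mul 65 g) (Nat.mul 5 x))) 31

/-- The action of the automorphism `g` on the curves. -/
def tam (g c : ℕ) : ℕ := Nat.land (Nat.shiftRight TAUT (Nat.add (Nat.mul 55 g) (Nat.mul 5 c))) 31

theorem pim_lt : ∀ g < 72, ∀ x < 13, pim g x < 13 := by decide +kernel

theorem tam_lt : ∀ g < 72, ∀ c < 11, tam g c < 11 := by decide +kernel

theorem pim_inj : ∀ g < 72, ∀ x < 13, ∀ y < 13, pim g x = pim g y → x = y := by decide +kernel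

theorem tam_inj : ∀ g < 72, ∀ x < 11, ∀ y < 11, tam g x = tam g y → x = y := by decide +kernel

theorem onc_map : ∀ g < 72, ∀ c < 11, ∀ x < 13, onc c x = true →
    onc (tam g c) (pim g x) = true := by decide +kernel

theorem com_map : ∀ g < 72, ∀ c < 11, ∀ d < 11, c ≠ d →
    com (tam g c) (tam g d) = pim g (com c d) := by decide +kernel

theorem com_core : ∀ c < 11, ∀ d < 11, c ≠ d → com c d < 13 := by decide +kernel

theorem com_map_lt : ∀ g < 72, ∀ c < 11, ∀ d < 11, c ≠ d →
    com (tam g c) (tam g d) < 13 := by decide +kernel

/-- Relabelling. -/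
def relab (g : ℕ) (hg : g < 72) (R : Rz 11) : Rz 11 where
  P x := R.P (pim g x)
  ex x := x < 13
  γ c := R.γ (tam g c)
  t c x := R.t (tam g c) (pim g x)
  exd x hx := hx
  cont c hc := R.cont _ (tam_lt g hg c hc)
  inj c hc := R.inj _ (tam_lt g hg c hc)
  tm c hc x _ ho hx := R.tm _ (tam_lt g hg c hc) _ (by have := pim_lt g hg x hx; omega)
    (onc_map g hg c hc x hx ho) (R.exd _ (pim_lt g hg x hx))
  pinj x _ y _ hx hy h := by
    have hx' := pim_lt g hg x hx
    have hy' := pim_lt g hg y hy
    exact pim_inj g hg x hx y hy
      (R.pinj _ (by omega) _ (by omega) (R.exd _ hx') (R.exd _ hy') h)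
  meet c hc d hd hcd _ z hz hz' := by
    refine ⟨com_core c hc d hd hcd, ?_⟩
    have h1 : tam g c ≠ tam g d := fun h => hcd (tam_inj g hg c hc d hd h)
    have h2 := com_map_lt g hg c hc d hd hcd
    have h3 := (R.meet _ (tam_lt g hg c hc) _ (tam_lt g hg d hd) h1 (by omega) z hz hz').2
    rw [h3, com_map g hg c hc d hd hcd]

/-- Forget the other curves. -/
def restr (R : Rz 17) : Rz 11 where
  P := R.P
  ex x := x < 13
  γ := R.γ
  t := R.t
  exd x hx := hx
  cont c hc := R.cont c (by omega)
  inj c hc := R.inj c (by omega)
  tm c hc x hx ho he := R.tm c (by omega) x hx ho (R.exd x he)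
  pinj x hx y hy ex ey h := R.pinj x hx y hy (R.exd x ex) (R.exd y ey) h
  meet c hc d hd hcd h31 z hz hz' :=
    ⟨com_core c hc d hd hcd, (R.meet c (by omega) d (by omega) hcd h31 z hz hz').2⟩

/-- The code `q` is about core curves and points only. -/
def coreq (q : ℕ) : Prop :=
  q < 1048576 ∧ q / 32768 < 11 ∧ q / 32 % 32 < 13 ∧ q / 1024 % 32 < 13 ∧ q % 32 < 13

instance (q : ℕ) : Decidable (coreq q) := by unfold coreq; infer_instance

theorem ev_restr (R : Rz 17) {q : ℕ} (h : coreq q) : ev (restr R) q ↔ ev R q := by
  obtain ⟨h0, hc, hx, hy, hz⟩ := h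
  unfold ev
  rw [if_pos h0, if_pos h0]
  have a1 := R.exd _ hx
  have a2 := R.exd _ hy
  have a3 := R.exd _ hz
  constructor
  · rintro ⟨-, -, -, h⟩
    exact ⟨a1, a2, a3, h⟩
  · rintro ⟨-, -, -, h⟩
    exact ⟨hx, hy, hz, h⟩

theorem lit_restr (vt : ℕ) (R : Rz 17) {l : ℕ} (h : coreq (vat vt (l / 2))) :
    lit vt (restr R) l ↔ lit vt R l := by
  unfold lit
  rw [ev_restr R h]

theorem Sat_restr (vt : ℕ) (hvt : ∀ i < 132, coreq (vat vt i)) (R : Rz 17) {m : ℕ}
    (hm : m < 2 ^ 264) (h : Sat vt (restr R) m) : Sat vt R m := by
  obtain ⟨l, hl, hs⟩ := h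
  have hl' : l < 264 := by
    by_contra hc
    rw [Nat.testBit_lt_two_pow (lt_of_lt_of_le hm (Nat.pow_le_pow_right (by norm_num) (by omega)))]
      at hl
    exact absurd hl (by decide)
  exact ⟨l, hl, (lit_restr vt R (hvt _ (by omega))).mp hs⟩

/-- The relabelled signed code. -/
noncomputable def imc (g s : ℕ) : ℕ :=
  Nat.add (Nat.mul 2 (bc (tam g (Nat.shiftRight s 16)) (pim g (Nat.land (Nat.shiftRight s 11) 31))
    (pim g (Nat.land (Nat.shiftRight s 6) 31)) (pim g (Nat.land (Nat.shiftRight s 1) 31))))
    (Nat.land s 1)

/-- The signed code is about core curves and points. -/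
noncomputable def cores (s : ℕ) : Bool :=
  and (Nat.blt s 2097152) (and (Nat.blt (Nat.shiftRight s 16) 11)
    (and (Nat.blt (Nat.land (Nat.shiftRight s 11) 31) 13)
      (and (Nat.blt (Nat.land (Nat.shiftRight s 6) 31) 13)
        (Nat.blt (Nat.land (Nat.shiftRight s 1) 31) 13))))

/-- The mask `mi` contains the image of the mask `mj` under the automorphism `g`. -/
noncomputable def chkI (vt mj mi g st : ℕ) : Bool :=
  and (Nat.blt g 72) (decK vt 64 st 0 [] fun Lj Mj st1 => and (Nat.beq Mj mj)
    (decK vt 64 st1 0 [] fun Li Mi _ => and (Nat.beq Mi mi)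
      (all1 (fun s => and (cores s) (force (imc g s) fun s' => memb s' Li)) Lj)))

theorem sl_imc (R : Rz 11) {g s : ℕ} (hg : g < 72) (hs : cores s = true)
    (h : sl (relab g hg R) s) : sl R (imc g s) := by
  have e1 : Nat.shiftRight s 16 = s / 65536 := by
    show s >>> 16 = _
    rw [Nat.shiftRight_eq_div_pow]
  have e2 : Nat.land (Nat.shiftRight s 11) 31 = s / 2048 % 32 := by
    show (s >>> 11) &&& 31 = _
    rw [Nat.shiftRight_eq_div_pow]
    exact Nat.and_two_pow_sub_one_eq_mod _ 5
  have e3 : Nat.land (Nat.shiftRight s 6) 31 = s / 64 % 32 := by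
    show (s >>> 6) &&& 31 = _
    rw [Nat.shiftRight_eq_div_pow]
    exact Nat.and_two_pow_sub_one_eq_mod _ 5
  have e4 : Nat.land (Nat.shiftRight s 1) 31 = s / 2 % 32 := by
    show (s >>> 1) &&& 31 = _
    rw [Nat.shiftRight_eq_div_pow]
    exact Nat.and_two_pow_sub_one_eq_mod _ 5
  have e5 : Nat.land s 1 = s % 2 := Nat.and_one_is_mod _
  simp only [cores, Bool.and_eq_true] at hs
  obtain ⟨h0, h1, h2, h3, h4⟩ := hs
  replace h0 := lt_of_blt h0
  replace h1 := lt_of_blt h1
  replace h2 := lt_of_blt h2
  replace h3 := lt_of_blt h3
  replace h4 := lt_of_blt h4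
  rw [e1] at h1
  rw [e2] at h2
  rw [e3] at h3
  rw [e4] at h4
  have hc := tam_lt g hg _ h1
  have hy := pim_lt g hg _ h2
  have hx := pim_lt g hg _ h3
  have hz := pim_lt g hg _ h4
  have key : ev (relab g hg R) (s / 2) ↔
      ev R (bc (tam g (s / 65536)) (pim g (s / 2048 % 32)) (pim g (s / 64 % 32))
        (pim g (s / 2 % 32))) := by
    rw [ev_bc R (by omega) (by omega) (by omega) (by omega)]
    have q0 : s / 2 < 1048576 := by omega
    have q1 : s / 2 / 32768 = s / 65536 := by omega
    have q2 : s / 2 / 1024 % 32 = s / 2048 % 32 := by omega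
    have q3 : s / 2 / 32 % 32 = s / 64 % 32 := by omega
    unfold ev
    rw [if_pos q0, q1, q2, q3]
    constructor
    · rintro ⟨-, -, -, h⟩
      exact ⟨R.exd _ hx, R.exd _ hy, R.exd _ hz, h⟩
    · rintro ⟨-, -, -, h⟩
      exact ⟨h3, h2, h4, h⟩
  unfold imc
  rw [e1, e2, e3, e4, e5]
  generalize hQ : bc (tam g (s / 65536)) (pim g (s / 2048 % 32)) (pim g (s / 64 % 32))
    (pim g (s / 2 % 32)) = Q at *
  have f1 : Nat.add (Nat.mul 2 Q) (s % 2) = 2 * Q + s % 2 := rfl
  have f2 : (2 * Q + s % 2) % 2 = s % 2 := by omega
  have f3 : (2 * Q + s % 2) / 2 = Q := by omega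
  unfold sl at h ⊢
  rw [f1, f2, f3, ← key]
  exact h

theorem chkI_sound {vt mj mi g st : ℕ} (hj : ∀ R : Rz 11, Sat vt R mj)
    (h : chkI vt mj mi g st = true) (R : Rz 11) : Sat vt R mi := by
  unfold chkI at h
  rw [Bool.and_eq_true] at h
  obtain ⟨hg0, h0⟩ := h
  have hg := lt_of_blt hg0
  obtain ⟨Lj, mj', st1, hLj, h1⟩ := decK_iff h0
  rw [Bool.and_eq_true] at h1
  obtain ⟨hm1, h2⟩ := h1
  obtain ⟨Li, mi', st2, hLi, h3⟩ := decK_iff h2
  rw [Bool.and_eq_true] at h3
  obtain ⟨hm2, h4⟩ := h3
  have e1 : mj' = mj := Nat.eq_of_beq_eq_true hm1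
  have e2 : mi' = mi := Nat.eq_of_beq_eq_true hm2
  rw [e1] at hLj
  rw [e2] at hLi
  obtain ⟨l, hl, hs⟩ := hj (relab g hg R)
  have h5 := all1_spec h4 _ ((hLj _).mpr ⟨l, hl, rfl⟩)
  simp only [force_eq, Bool.and_eq_true] at h5
  obtain ⟨h6, h7⟩ := h5
  obtain ⟨l', hl', he⟩ := (hLi _).mp (memb_spec h7)
  refine ⟨l', hl', ?_⟩
  rw [← sl_scode, ← he]
  exact sl_imc R hg h6 ((sl_scode _ _ _).mpr hs)

end Pool.Agent.T6.H80.MT
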