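import Mathlib
import Pool.Agent.T6.H80.MT.Sym

set_option autoImplicit false

/-!
The steps of the derivation and their soundness.
-/

namespace Pool.Agent.T6.H80.MT

open Set

/-- `2 ^ 264 - 1` -/
def M264 : ℕ := 29642774844752946028434172162224104410437116074403984394101141506025761187823615

theorem M264_eq : M264 + 1 = 2 ^ 264 := by
  have h : Nat.beq (M264 + 1) (Nat.pow 2 264) = true := by decide +kernel
  exact Nat.eq_of_beq_eq_true h

/-- The image step. -/
noncomputable def stepI (vt : ℕ) (t : DB) (i m p : ℕ) : Bool :=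
  force (Nat.land p 32767) fun j => force (Nat.land (Nat.shiftRight p 15) 127) fun g =>
    force (Nat.shiftRight p 22) fun st =>
    and (Nat.blt j i) (force (t.get j) fun mj => chkI vt mj m g st)

/-- A step of the first phase. -/
noncomputable def step1 (vt : ℕ) (t : DB) (i cert : ℕ) : Bool :=
  force (t.get i) fun m => and (Nat.ble m M264)
    (force (Nat.land cert 7) fun ty => force (Nat.shiftRight cert 3) fun p =>
      or (and (Nat.beq ty 0) (rup t i 600 m p))
        (or (and (Nat.beq ty 1) (chkK vt 11 m E5 p)) (or (and (Nat.beq ty 2) (chkK vt 11 m E33 p))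
          (or (and (Nat.beq ty 3) (chkA vt 11 m p)) (and (Nat.beq ty 4) (stepI vt t i m p))))))

/-- A step of the second phase. -/
noncomputable def step2 (vt : ℕ) (t : DB) (i cert : ℕ) : Bool :=
  force (t.get i) fun m =>
    (force (Nat.land cert 7) fun ty => force (Nat.shiftRight cert 3) fun p =>
      or (and (Nat.beq ty 0) (rup t i 600 m p))
        (or (and (Nat.beq ty 1) (chkK vt 17 m E5 p)) (or (and (Nat.beq ty 2) (chkK vt 17 m E33 p))
          (and (Nat.beq ty 3) (chkA vt 17 m p)))))

noncomputable def run (st : ℕ → ℕ → Bool) (e : ℕ) (L : List ℕ) : ℕ → Bool :=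
  List.rec (motive := fun _ => ℕ → Bool) (fun i => Nat.beq i e)
    (fun c _ ih i => and (st i c) (force (Nat.succ i) fun i' => ih i')) L

/-- The first `n` clauses hold for all realizations of the core. -/
def All1 (vt : ℕ) (t : DB) (n : ℕ) : Prop :=
  ∀ j < n, (∀ R : Rz 11, Sat vt R (t.get j)) ∧ t.get j < 2 ^ 264

/-- The first `n` clauses hold for all realizations. -/
def All2 (vt : ℕ) (t : DB) (n : ℕ) : Prop := ∀ j < n, ∀ R : Rz 17, Sat vt R (t.get j)

theorem All1.zero (vt : ℕ) (t : DB) : All1 vt t 0 := fun j hj => absurd hj (by omega)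

theorem All1.toAll2 {vt : ℕ} {t : DB} {n : ℕ} (hvt : ∀ i < 132, coreq (vat vt i))
    (h : All1 vt t n) : All2 vt t n := fun j hj R =>
  Sat_restr vt hvt R (h j hj).2 ((h j hj).1 (restr R))

theorem rup_sat {k : ℕ} {vt : ℕ} {R : Rz k} {t : DB} {i fuel m p : ℕ}
    (hdb : ∀ j < i, Sat vt R (t.get j)) (h : rup t i fuel m p = true) : Sat vt R m := by
  by_contra hns
  exact rup_spec vt R t i fuel hdb (fun l hl hlit => hns ⟨l, hl, hlit⟩) h

theorem step1_sound {vt : ℕ} {t : DB} {i cert : ℕ} (hA : All1 vt t i)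
    (h : step1 vt t i cert = true) :
    (∀ R : Rz 11, Sat vt R (t.get i)) ∧ t.get i < 2 ^ 264 := by
  simp only [step1, force_eq, Bool.and_eq_true, Bool.or_eq_true] at h
  obtain ⟨h1, h⟩ := h
  constructor
  · intro R
    rcases h with ⟨-, h⟩ | ⟨-, h⟩ | ⟨-, h⟩ | ⟨-, h⟩ | ⟨-, h⟩
    · exact rup_sat (fun j hj => (hA j hj).1 R) h
    · exact chk5_sound R (by norm_num) h
    · exact chk33_sound R (by norm_num) h
    · exact chkA_sound R h
    · simp only [stepI, force_eq, Bool.and_eq_true] at h
      exact chkI_sound (hA _ (lt_of_blt h.1)).1 h.2 R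
  · rw [← M264_eq]
    have := Nat.le_of_ble_eq_true h1
    omega

theorem step2_sound {vt : ℕ} {t : DB} {i cert : ℕ} (hA : All2 vt t i)
    (h : step2 vt t i cert = true) (R : Rz 17) : Sat vt R (t.get i) := by
  simp only [step2, force_eq, Bool.and_eq_true, Bool.or_eq_true] at h
  rcases h with ⟨-, h⟩ | ⟨-, h⟩ | ⟨-, h⟩ | ⟨-, h⟩
  · exact rup_sat (fun j hj => hA j hj R) h
  · exact chk5_sound R le_rfl h
  · exact chk33_sound R le_rfl h
  · exact chkA_sound R h

theorem run_cons (st : ℕ → ℕ → Bool) (e c : ℕ) (L : List ℕ) (i : ℕ) :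
    run st e (c :: L) i = and (st i c) (run st e L (i + 1)) := by
  have : run st e (c :: L) i = and (st i c) (force (Nat.succ i) fun i' => run st e L i') := rfl
  rw [this, force_eq]

theorem run1_sound {vt : ℕ} {t : DB} {e : ℕ} (L : List ℕ) {i : ℕ} (hA : All1 vt t i)
    (h : run (step1 vt t) e L i = true) : All1 vt t e := by
  induction L generalizing i with
  | nil =>
    have : Nat.beq i e = true := h
    rw [← Nat.eq_of_beq_eq_true this]
    exact hA
  | cons c L ih =>
    rw [run_cons, Bool.and_eq_true] at h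
    refine ih ?_ h.2
    intro j hj
    rcases Nat.lt_succ_iff_lt_or_eq.mp hj with h1 | h1
    · exact hA j h1
    · rw [h1]
      exact step1_sound hA h.1

theorem run2_sound {vt : ℕ} {t : DB} {e : ℕ} (L : List ℕ) {i : ℕ} (hA : All2 vt t i)
    (h : run (step2 vt t) e L i = true) : All2 vt t e := by
  induction L generalizing i with
  | nil =>
    have : Nat.beq i e = true := h
    rw [← Nat.eq_of_beq_eq_true this]
    exact hA
  | cons c L ih =>
    rw [run_cons, Bool.and_eq_true] at h
    refine ih ?_ h.2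
    intro j hj
    rcases Nat.lt_succ_iff_lt_or_eq.mp hj with h1 | h1
    · exact hA j h1
    · rw [h1]
      exact step2_sound hA h.1

/-- The empty clause refutes all realizations. -/
theorem All2.absurd {vt : ℕ} {t : DB} {n : ℕ} (h : All2 vt t n) (j : ℕ) (hj : j < n)
    (h0 : Nat.beq (t.get j) 0 = true) (R : Rz 17) : False := by
  have := h j hj R
  rw [Nat.eq_of_beq_eq_true h0] at this
  exact not_Sat_zero vt R this

end Pool.Agent.T6.H80.MT
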